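import Pool.Agent.H76.SF.Basic

/-!
# Evaluation of polynomials with small coefficients at a large integer
-/

set_option autoImplicit false

namespace Pool.Agent.H76.SF

open Finset Polynomial

theorem eq_zero_of_eval {M : ℤ} : ∀ (d : ℕ) (p : ℤ[X]), p.natDegree ≤ d →
    (∀ n, |p.coeff n| < M) → p.eval M = 0 → p = 0 := by
  intro d
  induction d with
  | zero =>
    intro p hd _ h
    rw [Polynomial.eq_C_of_natDegree_le_zero hd] at h ⊢
    rw [eval_C] at h
    rw [h, C_0]
  | succ d ih =>
    intro p hd hM h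
    have hM0 : 0 < M := lt_of_le_of_lt (abs_nonneg _) (hM 0)
    have h1 := divX_mul_X_add p
    have h2 : p.divX.eval M * M + p.coeff 0 = 0 := by
      have := congrArg (eval M) h1
      rw [h] at this
      simpa using this
    have h3 : p.coeff 0 = 0 := by
      refine Int.eq_zero_of_abs_lt_dvd (m := M) ⟨-(p.divX.eval M), ?_⟩ (hM 0)
      linarith
    have h4 : p.divX.eval M = 0 := by
      rw [h3, add_zero] at h2
      rcases mul_eq_zero.1 h2 with h | h
      · exact h
      · omega
    have h5 : p.divX = 0 := by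
      apply ih
      · rw [natDegree_divX_eq_natDegree_tsub_one]
        omega
      · intro n
        rw [coeff_divX]
        exact hM _
      · exact h4
    rw [← h1, h5, h3]
    simp

/-- All coefficients of the elements of `W` are at most `C` in absolute value. -/
def BddBy (C : ℕ) (W : Finset ℤ[X]) : Prop := ∀ p ∈ W, ∀ n, |p.coeff n| ≤ C

theorem eval_injOn {C : ℕ} {W : Finset ℤ[X]} (hW : BddBy C W) {M : ℤ} (hM : 2 * (C : ℤ) < M) :
    Set.InjOn (eval M) (W : Set ℤ[X]) := by
  intro p hp q hq h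
  have h1 : p - q = 0 := by
    refine eq_zero_of_eval _ _ le_rfl (fun n => ?_) (by rw [eval_sub]; exact sub_eq_zero.2 h)
    rw [coeff_sub]
    have h2 := hW p hp n
    have h3 := hW q hq n
    have := abs_sub (p.coeff n) (q.coeff n)
    omega
  exact sub_eq_zero.1 h1

theorem eval_ne_zero {C : ℕ} {W : Finset ℤ[X]} (hW : BddBy C W) {M : ℤ} (hM : 2 * (C : ℤ) < M)
    {p : ℤ[X]} (hp : p ∈ W) (h0 : p ≠ 0) : p.eval M ≠ 0 := by
  intro h
  apply h0
  refine eq_zero_of_eval _ _ le_rfl (fun n => ?_) h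
  have h2 := hW p hp n
  have h3 := abs_nonneg (p.coeff n)
  omega

theorem vmax_eval {k : ℕ} (hk : 0 < k) {a : Fin k → ℤ} {C : ℕ} {W : Finset ℤ[X]} (hW : BddBy C W)
    {M : ℤ} (hM : 2 * (C : ℤ) < M) (hM' : (∑ i, |a i|) * C < M) :
    vmax a (W.image (eval M)) = vmax a W := by
  refine vmax_image hk (eval M) (eval_injOn hW hM) fun x hx => ?_
  have h1 : ∑ i, a i • eval M (x i) = eval M (∑ i, a i • x i) := by
    rw [eval_finsetSum]
    refine Finset.sum_congr rfl fun i _ => ?_
    rw [eval_smul]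
  rw [h1]
  constructor
  · intro h
    refine eq_zero_of_eval _ _ le_rfl (fun n => ?_) h
    rw [finsetSum_coeff]
    refine lt_of_le_of_lt (Finset.abs_sum_le_sum_abs _ _) (lt_of_le_of_lt ?_ hM')
    rw [Finset.sum_mul]
    refine Finset.sum_le_sum fun i _ => ?_
    rw [coeff_smul, smul_eq_mul, abs_mul]
    exact mul_le_mul_of_nonneg_left (hW _ (hx i) n) (abs_nonneg _)
  · intro h
    rw [h, eval_zero]

end Pool.Agent.H76.SF
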