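import Pool.Agent.H76.SF.Basic

/-!
# Many generic copies of a set: the largest solution-free subset has eventually linear size
-/

set_option autoImplicit false

namespace Pool.Agent.H76.SF

open Finset Polynomial

variable {k : ℕ}

/-- The union of generic copies of the sets `c j`, `j < m`. -/
noncomputable def padOf (m : ℕ) (c : ℕ → Finset ℤ) : Finset ℤ[X] :=
  (Finset.range m).biUnion fun j => (c j).image fun b => monomial j b

/-- `m` generic copies of `B`. -/
noncomputable def pad (B : Finset ℤ) (m : ℕ) : Finset ℤ[X] := padOf m fun _ => B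

theorem mem_padOf {m : ℕ} {c : ℕ → Finset ℤ} {p : ℤ[X]} :
    p ∈ padOf m c ↔ ∃ j < m, ∃ b ∈ c j, monomial j b = p := by
  simp [padOf]

theorem card_padOf {m : ℕ} {c : ℕ → Finset ℤ} (h0 : ∀ j, 0 ∉ c j) :
    (padOf m c).card = ∑ j ∈ Finset.range m, (c j).card := by
  unfold padOf
  rw [Finset.card_biUnion]
  · refine Finset.sum_congr rfl fun j _ => ?_
    exact Finset.card_image_of_injective _ (monomial_injective j)
  · intro i _ j _ hij
    rw [Function.onFun, Finset.disjoint_left]
    intro p hp hp'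
    rw [Finset.mem_image] at hp hp'
    obtain ⟨b, hb, rfl⟩ := hp
    obtain ⟨b', hb', h⟩ := hp'
    have hb0 : b ≠ 0 := by rintro rfl; exact h0 i hb
    rcases (monomial_eq_monomial_iff).1 h with ⟨h1, -⟩ | ⟨-, h2⟩
    · exact hij h1.symm
    · exact hb0 h2

theorem padOf_mono {m : ℕ} {c c' : ℕ → Finset ℤ} (h : ∀ j < m, c j ⊆ c' j) :
    padOf m c ⊆ padOf m c' := by
  intro p hp
  rw [mem_padOf] at hp ⊢
  obtain ⟨j, hj, b, hb, h'⟩ := hp
  exact ⟨j, hj, b, h j hj hb, h'⟩

theorem zero_notMem_padOf {m : ℕ} {c : ℕ → Finset ℤ} (h0 : ∀ j, 0 ∉ c j) : 0 ∉ padOf m c := by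
  rw [mem_padOf]
  rintro ⟨j, _, b, hb, h⟩
  rw [monomial_eq_zero_iff] at h
  subst h
  exact h0 j hb

/-- Moving a solution to other copies. -/
theorem move_solution {a : Fin k → ℤ} {j : Fin k → ℕ} {b : Fin k → ℤ} (φ : ℕ → ℕ)
    (hφ : ∀ i i', φ (j i) = φ (j i') → j i = j i')
    (h : ∑ i, a i • monomial (j i) (b i) = (0 : ℤ[X])) :
    ∑ i, a i • monomial (φ (j i)) (b i) = (0 : ℤ[X]) := by
  ext n
  simp only [finsetSum_coeff, coeff_smul, coeff_monomial, coeff_zero]
  by_cases hn : ∃ i₀, φ (j i₀) = n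
  · obtain ⟨i₀, hi₀⟩ := hn
    have h1 := congrArg (fun p => coeff p (j i₀)) h
    simp only [finsetSum_coeff, coeff_smul, coeff_monomial, coeff_zero] at h1
    refine Eq.trans ?_ h1
    refine Finset.sum_congr rfl fun i _ => ?_
    subst hi₀
    by_cases hji : j i = j i₀
    · rw [if_pos hji, if_pos (by rw [hji])]
    · rw [if_neg hji, if_neg fun hh => hji (hφ _ _ hh)]
  · refine Finset.sum_eq_zero fun i _ => ?_
    rw [if_neg fun hh => hn ⟨i, hh⟩, smul_zero]

/-- Transfer of solution-freeness between families of copies. -/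
theorem free_transfer {a : Fin k → ℤ} {m m' : ℕ} {c c' : ℕ → Finset ℤ}
    (hf : VFree a (padOf m c))
    (h : ∀ J : Finset ℕ, (∀ j ∈ J, j < m') → J.card ≤ k →
      ∃ φ : ℕ → ℕ, Set.InjOn φ J ∧ ∀ j ∈ J, φ j < m ∧ c' j ⊆ c (φ j)) :
    VFree a (padOf m' c') := by
  classical
  intro x hx h0
  have h1 : ∀ i, ∃ j < m', ∃ b ∈ c' j, monomial j b = x i := fun i => mem_padOf.1 (hx i)
  choose j hj b hb hxi using h1
  obtain ⟨φ, hφ, hφ'⟩ := h (Finset.univ.image j) (by
    intro n hn
    obtain ⟨i, _, rfl⟩ := Finset.mem_image.1 hn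
    exact hj i) (Finset.card_image_le.trans (by simp))
  have hmem : ∀ i, j i ∈ Finset.univ.image j := fun i => Finset.mem_image_of_mem _ (by simp)
  refine hf (fun i => monomial (φ (j i)) (b i)) (fun i => ?_) ?_
  · rw [mem_padOf]
    exact ⟨φ (j i), (hφ' _ (hmem i)).1, b i, (hφ' _ (hmem i)).2 (hb i), rfl⟩
  · apply move_solution φ
    · intro i i' hh
      exact hφ (by exact_mod_cast hmem i) (by exact_mod_cast hmem i') hh
    · rw [← h0]
      exact Finset.sum_congr rfl fun i _ => by rw [hxi]

/-- A type that can be used in arbitrarily many copies. -/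
def Unlimited (a : Fin k → ℤ) (T : Finset ℤ) : Prop := ∀ m, VFree a (padOf m fun _ => T)

theorem unlimited_of_many {a : Fin k → ℤ} {m : ℕ} {c : ℕ → Finset ℤ} {T : Finset ℤ}
    (hf : VFree a (padOf m c)) (hT : k ≤ ((Finset.range m).filter fun j => c j = T).card) :
    Unlimited a T := by
  intro m'
  refine free_transfer hf fun J _ hJk => ?_
  obtain ⟨S, hS, hSc⟩ := Finset.exists_subset_card_eq (hJk.trans hT)
  have hb : Nonempty (J ≃ S) := by
    rw [← Fintype.card_eq]
    simp [hSc]
  obtain ⟨e⟩ := hb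
  classical
  refine ⟨fun n => if h : n ∈ J then (e ⟨n, h⟩ : ℕ) else 0, ?_, ?_⟩
  · intro n hn n' hn' h
    have hn1 : n ∈ J := hn
    have hn1' : n' ∈ J := hn'
    simp only [hn1, hn1', dif_pos] at h
    have := e.injective (Subtype.ext h)
    simpa using this
  · intro n hn
    have h1 := hS (e ⟨n, hn⟩).2
    simp only [Finset.mem_filter, Finset.mem_range] at h1
    simp only [hn, dif_pos]
    exact ⟨h1.1, by rw [h1.2]⟩

theorem extend_of_many {a : Fin k → ℤ} {m : ℕ} {c : ℕ → Finset ℤ} {T : Finset ℤ}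
    (hf : VFree a (padOf m c)) (hT : k ≤ ((Finset.range m).filter fun j => c j = T).card) :
    VFree a (padOf (m + 1) (Function.update c m T)) := by
  classical
  refine free_transfer hf fun J hJ hJk => ?_
  by_cases hm : m ∈ J
  · have h1 : (J.erase m).card < ((Finset.range m).filter fun j => c j = T).card := by
      rw [Finset.card_erase_of_mem hm]
      have : 0 < J.card := Finset.card_pos.2 ⟨m, hm⟩
      omega
    obtain ⟨j₀, hj₀, hj₀'⟩ := Finset.exists_mem_notMem_of_card_lt_card h1
    simp only [Finset.mem_filter, Finset.mem_range] at hj₀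
    refine ⟨Function.update id m j₀, ?_, ?_⟩
    · intro n hn n' hn' h
      by_cases hnm : n = m <;> by_cases hnm' : n' = m
      · rw [hnm, hnm']
      · exfalso
        subst hnm
        rw [Function.update_self, Function.update_of_ne hnm'] at h
        apply hj₀'
        rw [h]
        exact Finset.mem_erase.2 ⟨hnm', hn'⟩
      · exfalso
        subst hnm'
        rw [Function.update_self, Function.update_of_ne hnm] at h
        apply hj₀'
        rw [← h]
        exact Finset.mem_erase.2 ⟨hnm, hn⟩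
      · rw [Function.update_of_ne hnm, Function.update_of_ne hnm'] at h
        exact h
    · intro n hn
      by_cases hnm : n = m
      · subst hnm
        rw [Function.update_self, Function.update_self]
        exact ⟨hj₀.1, by rw [hj₀.2]⟩
      · rw [Function.update_of_ne hnm, Function.update_of_ne hnm]
        have := hJ n hn
        exact ⟨by simp only [id]; omega, by simp⟩
  · refine ⟨id, Set.injOn_id _, fun n hn => ?_⟩
    have hnm : n ≠ m := by rintro rfl; exact hm hn
    rw [Function.update_of_ne hnm]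
    have := hJ n hn
    exact ⟨by simp only [id]; omega, by simp⟩

theorem remove_copy {a : Fin k → ℤ} {m : ℕ} {c : ℕ → Finset ℤ} {j₀ : ℕ} (hj₀ : j₀ < m + 1)
    (hf : VFree a (padOf (m + 1) c)) :
    VFree a (padOf m fun j => c (Equiv.swap j₀ m j)) := by
  refine free_transfer hf fun J hJ _ => ?_
  refine ⟨Equiv.swap j₀ m, (Equiv.injective _).injOn, fun j hj => ⟨?_, subset_rfl⟩⟩
  have := hJ j hj
  rcases eq_or_ne j j₀ with rfl | h1
  · rw [Equiv.swap_apply_left]; omega
  · rw [Equiv.swap_apply_of_ne_of_ne h1 (by omega)]; omega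

theorem sum_swap {m : ℕ} (f : ℕ → ℕ) {j₀ : ℕ} (hj₀ : j₀ < m + 1) :
    ∑ j ∈ Finset.range m, f (Equiv.swap j₀ m j) + f j₀ = ∑ j ∈ Finset.range (m + 1), f j := by
  have h1 : f j₀ = f (Equiv.swap j₀ m m) := by rw [Equiv.swap_apply_right]
  rw [h1, ← Finset.sum_range_succ (fun j => f (Equiv.swap j₀ m j))]
  refine Finset.sum_bij (fun j _ => Equiv.swap j₀ m j) ?_ ?_ ?_ ?_
  · intro j hj
    simp only [Finset.mem_range] at hj ⊢
    rcases eq_or_ne j j₀ with rfl | h1
    · rw [Equiv.swap_apply_left]; omega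
    · rcases eq_or_ne j m with rfl | h2
      · rw [Equiv.swap_apply_right]; omega
      · rw [Equiv.swap_apply_of_ne_of_ne h1 h2]; omega
  · intro x _ y _ h
    exact (Equiv.injective _) h
  · intro j hj
    refine ⟨Equiv.swap j₀ m j, ?_, Equiv.swap_apply_self _ _ _⟩
    simp only [Finset.mem_range] at hj ⊢
    rcases eq_or_ne j j₀ with rfl | h1
    · rw [Equiv.swap_apply_left]; omega
    · rcases eq_or_ne j m with rfl | h2
      · rw [Equiv.swap_apply_right]; omega
      · rw [Equiv.swap_apply_of_ne_of_ne h1 h2]; omega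
  · intro j _
    rfl

theorem unlimited_singleton {a : Fin k → ℤ} (ha : ∑ i, a i ≠ 0) {b : ℤ} (hb : b ≠ 0) :
    Unlimited a {b} := by
  intro m x hx h0
  have h1 : ∀ i, ∃ j < m, monomial j b = x i := fun i => by
    obtain ⟨j, hj, b', hb', h⟩ := mem_padOf.1 (hx i)
    rw [Finset.mem_singleton] at hb'
    subst hb'
    exact ⟨j, hj, h⟩
  choose j hj hxi using h1
  have h2 := congrArg (Polynomial.eval 1) h0
  simp only [← hxi, eval_finsetSum, smul_monomial, eval_monomial, one_pow, mul_one,
    eval_zero, smul_eq_mul, ← Finset.sum_mul] at h2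
  rcases mul_eq_zero.1 h2 with h | h
  · exact ha h
  · exact hb h

open Classical in
/-- The largest size of an unlimited type. -/
noncomputable def alphaU (a : Fin k → ℤ) (B : Finset ℤ) : ℕ :=
  (B.powerset.filter (Unlimited a)).sup Finset.card

theorem card_le_alphaU {a : Fin k → ℤ} {B T : Finset ℤ} (hT : T ⊆ B) (hU : Unlimited a T) :
    T.card ≤ alphaU a B := by
  classical
  unfold alphaU
  exact Finset.le_sup (f := Finset.card) (by simp [hT, hU])

theorem exists_alphaU (a : Fin k → ℤ) (ha : ∑ i, a i ≠ 0) {B : Finset ℤ} (hB : B.Nonempty)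
    (hB0 : 0 ∉ B) : ∃ T ⊆ B, Unlimited a T ∧ T.card = alphaU a B := by
  classical
  have hne : (B.powerset.filter (Unlimited a)).Nonempty := by
    obtain ⟨b, hb⟩ := hB
    exact ⟨{b}, by simp [hb, unlimited_singleton ha (show b ≠ 0 by rintro rfl; exact hB0 hb)]⟩
  obtain ⟨T, hT, h⟩ := Finset.exists_mem_eq_sup _ hne (Finset.card : Finset ℤ → ℕ)
  simp only [Finset.mem_filter, Finset.mem_powerset] at hT
  refine ⟨T, hT.1, hT.2, ?_⟩
  unfold alphaU
  rw [h]

theorem alphaU_pos {a : Fin k → ℤ} (ha : ∑ i, a i ≠ 0) {B : Finset ℤ} (hB : B.Nonempty)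
    (hB0 : 0 ∉ B) : 0 < alphaU a B := by
  obtain ⟨b, hb⟩ := hB
  have := card_le_alphaU (a := a) (B := B) (T := {b}) (by simpa using hb)
    (unlimited_singleton ha (by rintro rfl; exact hB0 hb))
  rw [Finset.card_singleton] at this
  omega

/-- The unlimited types are solution-free. -/
theorem Unlimited.free {a : Fin k → ℤ} {T : Finset ℤ} (h : Unlimited a T) : VFree a T := by
  intro x hx h0
  refine h 1 (fun i => monomial 0 (x i)) (fun i => mem_padOf.2 ⟨0, by omega, x i, hx i, rfl⟩) ?_
  have : ∑ i, a i • monomial 0 (x i) = (monomial 0 (∑ i, a i • x i) : ℤ[X]) := by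
    rw [map_sum]
    simp only [smul_monomial]
  rw [this, h0, monomial_zero_right]

theorem alphaU_le {a : Fin k → ℤ} (ha : ∑ i, a i ≠ 0) {B : Finset ℤ} (hB : B.Nonempty)
    (hB0 : 0 ∉ B) : alphaU a B ≤ vmax a B := by
  obtain ⟨T, hT, hU, hc⟩ := exists_alphaU a ha hB hB0
  rw [← hc]
  exact card_le_vmax hT hU.free

/-- Subsets of `pad B m` are described by their traces on the copies. -/
theorem exists_trace {B : Finset ℤ} {m : ℕ} {A : Finset ℤ[X]} (hA : A ⊆ pad B m) :
    ∃ c : ℕ → Finset ℤ, (∀ j, c j ⊆ B) ∧ A = padOf m c := by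
  classical
  refine ⟨fun j => B.filter fun b => monomial j b ∈ A, fun j => Finset.filter_subset _ _, ?_⟩
  ext p
  rw [mem_padOf]
  constructor
  · intro hp
    obtain ⟨j, hj, b, hb, h⟩ := mem_padOf.1 (hA hp)
    exact ⟨j, hj, b, by rw [Finset.mem_filter]; exact ⟨hb, by rw [h]; exact hp⟩, h⟩
  · rintro ⟨j, hj, b, hb, h⟩
    rw [Finset.mem_filter] at hb
    rw [← h]
    exact hb.2

/-- Few copies carry a type which is not unlimited. -/
theorem card_limited_le {B : Finset ℤ} {m : ℕ} {c : ℕ → Finset ℤ}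
    (hc : ∀ j, c j ⊆ B) (Q : Finset ℤ → Prop)
    (hQ : ∀ T, Q T → ((Finset.range m).filter fun j => c j = T).card ≤ k) [DecidablePred Q] :
    ((Finset.range m).filter fun j => Q (c j)).card ≤ 2 ^ B.card * k := by
  classical
  have h1 : (Finset.range m).filter (fun j => Q (c j)) ⊆
      (B.powerset.filter Q).biUnion fun T => (Finset.range m).filter fun j => c j = T := by
    intro j hj
    simp only [Finset.mem_filter, Finset.mem_range] at hj
    simp only [Finset.mem_biUnion, Finset.mem_filter, Finset.mem_powerset, Finset.mem_range]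
    exact ⟨c j, ⟨hc j, hj.2⟩, hj.1, rfl⟩
  refine (Finset.card_le_card h1).trans (Finset.card_biUnion_le.trans ?_)
  refine (Finset.sum_le_card_nsmul _ _ k fun T hT => hQ T (Finset.mem_filter.1 hT).2).trans ?_
  rw [smul_eq_mul]
  refine Nat.mul_le_mul_right _ ((Finset.card_filter_le _ _).trans ?_)
  rw [Finset.card_powerset]

/-- The largest solution-free subset of `m` generic copies has eventually linear size. -/
theorem vmax_pad_succ {a : Fin k → ℤ} (hk : 0 < k) (ha : ∑ i, a i ≠ 0) {B : Finset ℤ}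
    (hB : B.Nonempty) (hB0 : 0 ∉ B) :
    ∃ m₀, ∀ m ≥ m₀, vmax a (pad B (m + 1)) = vmax a (pad B m) + alphaU a B := by
  classical
  have hpos := alphaU_pos ha hB hB0
  refine ⟨2 ^ B.card * k * (B.card + alphaU a B) + 2 ^ B.card * k + 1, fun m hm => ?_⟩
  have hlim : ∀ (m : ℕ) (c : ℕ → Finset ℤ), (∀ j, c j ⊆ B) → VFree a (padOf m c) →
      ((Finset.range m).filter fun j => ¬ Unlimited a (c j)).card ≤ 2 ^ B.card * k := by
    intro m c hc hf
    refine card_limited_le hc (fun T => ¬ Unlimited a T) fun T hT => ?_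
    by_contra hcon
    exact hT (unlimited_of_many hf (by omega))
  have hc0 : ∀ c : ℕ → Finset ℤ, (∀ j, c j ⊆ B) → ∀ j, 0 ∉ c j := fun c hc j h => hB0 (hc j h)
  apply le_antisymm
  · obtain ⟨A, hA, hf, hcard⟩ := exists_vmax a hk (pad B (m + 1))
    obtain ⟨c, hc, rfl⟩ := exists_trace hA
    have h1 := hlim _ c hc hf
    obtain ⟨j₀, hj₀, hj₀'⟩ : ∃ j₀ < m + 1, Unlimited a (c j₀) := by
      by_contra hcon
      push Not at hcon
      have h2 : (Finset.range (m + 1)).filter (fun j => ¬ Unlimited a (c j)) =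
          Finset.range (m + 1) := by
        rw [Finset.filter_eq_self]
        intro j hj
        exact hcon j (Finset.mem_range.1 hj)
      rw [h2, Finset.card_range] at h1
      have : 0 ≤ 2 ^ B.card * k * (B.card + alphaU a B) := Nat.zero_le _
      omega
    have h3 := card_le_vmax (A := pad B m) (padOf_mono fun j _ => hc (Equiv.swap j₀ m j))
      (remove_copy hj₀ hf)
    rw [card_padOf (hc0 _ fun j => hc _)] at h3
    have h4 := sum_swap (fun j => (c j).card) hj₀
    have h5 := card_le_alphaU (hc j₀) hj₀'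
    rw [← hcard, card_padOf (hc0 c hc), ← h4]
    exact Nat.add_le_add h3 h5
  · obtain ⟨A, hA, hf, hcard⟩ := exists_vmax a hk (pad B m)
    obtain ⟨c, hc, rfl⟩ := exists_trace hA
    have h1 := hlim _ c hc hf
    -- the all-unlimited configuration
    obtain ⟨T₀, hT₀, hU₀, hcT₀⟩ := exists_alphaU a ha hB hB0
    have h2 : m * alphaU a B ≤ vmax a (pad B m) := by
      have := card_le_vmax (A := pad B m) (padOf_mono fun j _ => hT₀) (hU₀ m)
      rw [card_padOf (c := fun _ => T₀) (fun _ h => hB0 (hT₀ h))] at this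
      simpa [hcT₀] using this
    obtain ⟨T, hT, hTU, hTc, hTk⟩ : ∃ T ⊆ B, Unlimited a T ∧ T.card = alphaU a B ∧
        k ≤ ((Finset.range m).filter fun j => c j = T).card := by
      by_contra hcon
      push Not at hcon
      have h3 : ((Finset.range m).filter fun j => c j ⊆ B ∧ Unlimited a (c j) ∧
          (c j).card = alphaU a B).card ≤ 2 ^ B.card * k :=
        card_limited_le hc (fun T => T ⊆ B ∧ Unlimited a T ∧ T.card = alphaU a B)
          fun T hT => (hcon T hT.1 hT.2.1 hT.2.2).le
      have h4 : (padOf m c).card ≤ ∑ j ∈ Finset.range m, ((if ¬ Unlimited a (c j) then B.card else 0) +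
          ((if c j ⊆ B ∧ Unlimited a (c j) ∧ (c j).card = alphaU a B then alphaU a B else 0) +
            (alphaU a B - 1))) := by
        rw [card_padOf (hc0 c hc)]
        refine Finset.sum_le_sum fun j _ => ?_
        by_cases hU : Unlimited a (c j)
        · have h5 := card_le_alphaU (hc j) hU
          by_cases h6 : (c j).card = alphaU a B
          · rw [if_neg (not_not.2 hU), if_pos ⟨hc j, hU, h6⟩]
            omega
          · rw [if_neg (not_not.2 hU), if_neg fun h => h6 h.2.2]
            omega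
        · rw [if_pos hU]
          have := Finset.card_le_card (hc j)
          omega
      rw [Finset.sum_add_distrib, Finset.sum_add_distrib, Finset.sum_ite, Finset.sum_ite] at h4
      simp only [Finset.sum_const, smul_eq_mul, mul_zero, Finset.card_range, add_zero] at h4
      have h5 := Nat.mul_le_mul_right B.card h1
      have h6 := Nat.mul_le_mul_right (alphaU a B) h3
      have h7 : m * alphaU a B = m * (alphaU a B - 1) + m := by
        obtain ⟨e, he⟩ : ∃ e, alphaU a B = e + 1 := ⟨alphaU a B - 1, by omega⟩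
        rw [he]
        simp
        ring
      have h8 : 2 ^ B.card * k * (B.card + alphaU a B) =
        2 ^ B.card * k * B.card + 2 ^ B.card * k * alphaU a B := by ring
      omega
    have h3 := card_le_vmax (A := pad B (m + 1)) (padOf_mono (c := Function.update c m T)
      fun j _ => by
        by_cases hj : j = m
        · subst hj; rw [Function.update_self]; exact hT
        · rw [Function.update_of_ne hj]; exact hc j) (extend_of_many hf hTk)
    rw [card_padOf (fun j => ?_), Finset.sum_range_succ, Function.update_self, hTc] at h3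
    · rw [← hcard, card_padOf (hc0 c hc)]
      refine le_trans (Nat.add_le_add_right (le_of_eq ?_) _) h3
      refine Finset.sum_congr rfl fun j hj => ?_
      rw [Function.update_of_ne (by have := Finset.mem_range.1 hj; omega)]
    · by_cases hj : j = m
      · subst hj; rw [Function.update_self]; exact fun h => hB0 (hT h)
      · rw [Function.update_of_ne hj]; exact hc0 c hc j

theorem pad_nonempty {B : Finset ℤ} (hB : B.Nonempty) {m : ℕ} (hm : 0 < m) :
    (pad B m).Nonempty := by
  obtain ⟨b, hb⟩ := hB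
  exact ⟨monomial 0 b, mem_padOf.2 ⟨0, hm, b, hb, rfl⟩⟩

theorem card_pad {B : Finset ℤ} (hB0 : 0 ∉ B) (m : ℕ) : (pad B m).card = m * B.card := by
  unfold pad
  rw [card_padOf (fun _ => hB0)]
  simp

/-- An explicit linear formula. -/
theorem vmax_pad_eq {a : Fin k → ℤ} (hk : 0 < k) (ha : ∑ i, a i ≠ 0) {B : Finset ℤ}
    (hB : B.Nonempty) (hB0 : 0 ∉ B) :
    ∃ m₀ g₀ α : ℕ, 0 < m₀ ∧ α ≤ vmax a B ∧ ∀ s, vmax a (pad B (m₀ + s)) = g₀ + α * s := by
  obtain ⟨m₁, h⟩ := vmax_pad_succ hk ha hB hB0
  refine ⟨m₁ + 1, vmax a (pad B (m₁ + 1)), alphaU a B, by omega, alphaU_le ha hB hB0, fun s => ?_⟩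
  induction s with
  | zero => simp
  | succ s ih =>
    rw [← add_assoc, h _ (by omega), ih]
    ring

end Pool.Agent.H76.SF
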