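import Pool.Agent.H76.SF.Graph
import Pool.Agent.H76.SF.Pad
import Pool.Agent.H76.SF.Eval

/-!
# Assembling the instance
-/

set_option autoImplicit false

namespace Pool.Agent.H76.SF

open Finset Polynomial

/-- The polynomials of degree less than `N`. -/
def lowSub (N : ℕ) : AddSubgroup ℤ[X] where
  carrier := {p | ∀ m, N ≤ m → p.coeff m = 0}
  add_mem' := by
    intro p q hp hq m hm
    rw [coeff_add, hp m hm, hq m hm, add_zero]
  zero_mem' := by intro m _; exact coeff_zero m
  neg_mem' := by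
    intro p hp m hm
    rw [coeff_neg, hp m hm, neg_zero]

/-- The multiples of `X ^ N`. -/
def highSub (N : ℕ) : AddSubgroup ℤ[X] where
  carrier := {p | ∀ m, m < N → p.coeff m = 0}
  add_mem' := by
    intro p q hp hq m hm
    rw [coeff_add, hp m hm, hq m hm, add_zero]
  zero_mem' := by intro m _; exact coeff_zero m
  neg_mem' := by
    intro p hp m hm
    rw [coeff_neg, hp m hm, neg_zero]

theorem mem_lowSub {N : ℕ} {p : ℤ[X]} : p ∈ lowSub N ↔ ∀ m, N ≤ m → p.coeff m = 0 := Iff.rfl

theorem mem_highSub {N : ℕ} {p : ℤ[X]} : p ∈ highSub N ↔ ∀ m, m < N → p.coeff m = 0 := Iff.rfl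

theorem low_high_disjoint (N : ℕ) : Disjoint (lowSub N) (highSub N) := by
  rw [AddSubgroup.disjoint_def]
  intro p hp hq
  ext m
  rw [coeff_zero]
  rcases Nat.lt_or_ge m N with h | h
  · exact hq m h
  · exact hp m h

/-- Multiplication by `X ^ d`. -/
noncomputable def shift (d : ℕ) : ℤ[X] →+ ℤ[X] := AddMonoidHom.mulLeft (X ^ d)

theorem shift_apply (d : ℕ) (p : ℤ[X]) : shift d p = X ^ d * p := rfl

theorem shift_injective (d : ℕ) : Function.Injective (shift d) := by
  intro p q h
  rw [shift_apply, shift_apply] at h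
  exact mul_left_cancel₀ (pow_ne_zero _ X_ne_zero) h

theorem shift_mem_highSub (d : ℕ) (p : ℤ[X]) : shift d p ∈ highSub d := by
  intro m hm
  rw [shift_apply, coeff_X_pow_mul', if_neg (by omega)]

theorem shift_monomial (d i : ℕ) (c : ℤ) : shift d (monomial i c) = monomial (d + i) c := by
  rw [shift_apply, X_pow_mul_monomial, add_comm]

variable {k : ℕ} {a : Fin k → ℤ}

/-- `W` shifted, with `t` generic single elements. -/
noncomputable def addSingles (t : ℕ) (W : Finset ℤ[X]) : Finset ℤ[X] :=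
  (Finset.range t).image (fun j => monomial j 1) ∪ W.image (shift t)

theorem addSingles_succ (t : ℕ) (W : Finset ℤ[X]) :
    addSingles (t + 1) W = {monomial 0 1} ∪ (addSingles t W).image (shift 1) := by
  ext p
  simp only [addSingles, Finset.mem_union, Finset.mem_image, Finset.mem_range,
    Finset.mem_singleton]
  constructor
  · rintro (⟨j, hj, rfl⟩ | ⟨w, hw, rfl⟩)
    · cases j with
      | zero => left; rfl
      | succ j =>
        right
        refine ⟨monomial j 1, Or.inl ⟨j, by omega, rfl⟩, ?_⟩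
        rw [shift_monomial, add_comm]
    · right
      refine ⟨shift t w, Or.inr ⟨w, hw, rfl⟩, ?_⟩
      rw [shift_apply, shift_apply, shift_apply, ← mul_assoc, ← pow_add, add_comm]
  · rintro (rfl | ⟨q, ⟨j, hj, rfl⟩ | ⟨w, hw, rfl⟩, rfl⟩)
    · exact Or.inl ⟨0, by omega, rfl⟩
    · left
      refine ⟨j + 1, by omega, ?_⟩
      rw [shift_monomial, add_comm]
    · right
      refine ⟨w, hw, ?_⟩
      rw [shift_apply, shift_apply, shift_apply, ← mul_assoc, ← pow_add, add_comm]

theorem zero_notMem_shift {W : Finset ℤ[X]} (hW : 0 ∉ W) (d : ℕ) : 0 ∉ W.image (shift d) := by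
  intro h
  obtain ⟨w, hw, h⟩ := Finset.mem_image.1 h
  rw [map_eq_zero_iff _ (shift_injective d)] at h
  exact hW (h ▸ hw)

theorem zero_notMem_addSingles {W : Finset ℤ[X]} (hW : 0 ∉ W) (t : ℕ) : 0 ∉ addSingles t W := by
  unfold addSingles
  rw [Finset.mem_union, not_or]
  refine ⟨fun h => ?_, zero_notMem_shift hW t⟩
  obtain ⟨j, _, h⟩ := Finset.mem_image.1 h
  rw [monomial_eq_zero_iff] at h
  exact one_ne_zero h

/-- A tight set below a shifted set. -/
theorem vmax_low_union (hk : 0 < k) (ha : ∑ i, a i ≠ 0) {N : ℕ} {U W : Finset ℤ[X]}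
    (hU : ∀ u ∈ U, u ∈ lowSub N) (hU0 : 0 ∉ U) (hW0 : 0 ∉ W) (ht : Tight a U)
    (hne : W.Nonempty) : vmax a (U ∪ W.image (shift N)) = vmax a U + vmax a W := by
  rw [vmax_union hk ha (lowSub N) (highSub N) (low_high_disjoint N) hU ?_ hU0
    (zero_notMem_shift hW0 N) ht (hne.image _), vmax_image_hom hk (shift N) (shift_injective N)]
  intro w hw
  obtain ⟨v, _, rfl⟩ := Finset.mem_image.1 hw
  exact shift_mem_highSub N v

theorem card_low_union {N : ℕ} {U W : Finset ℤ[X]}
    (hU : ∀ u ∈ U, u ∈ lowSub N) (hU0 : 0 ∉ U) :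
    (U ∪ W.image (shift N)).card = U.card + W.card := by
  rw [Finset.card_union_of_disjoint, Finset.card_image_of_injective _ (shift_injective N)]
  rw [Finset.disjoint_left]
  intro x hx hx'
  obtain ⟨v, _, rfl⟩ := Finset.mem_image.1 hx'
  have := AddSubgroup.disjoint_def.1 (low_high_disjoint N) (hU _ hx) (shift_mem_highSub N v)
  rw [this] at hx
  exact hU0 hx

theorem vmax_singleton_pos (hk : 0 < k) (ha : ∑ i, a i ≠ 0) {w : ℤ[X]} (hw : w ≠ 0) :
    vmax a {w} = 1 := by
  apply le_antisymm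
  · rw [vmax_le_iff hk]
    intro B hB _
    simpa using Finset.card_le_card hB
  · simpa using card_le_vmax (subset_refl _) (VFree.singleton ha hw)

theorem vmax_addSingles (hk : 0 < k) (ha : ∑ i, a i ≠ 0) {W : Finset ℤ[X]} (hW0 : 0 ∉ W)
    (hne : W.Nonempty) (t : ℕ) : vmax a (addSingles t W) = t + vmax a W := by
  induction t with
  | zero =>
    have : addSingles 0 W = W := by
      unfold addSingles
      have h : (shift 0 : ℤ[X] → ℤ[X]) = id := by
        funext p
        rw [shift_apply, pow_zero, one_mul]; rfl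
      rw [h]
      simp
    rw [this, zero_add]
  | succ t ih =>
    have h1 : (monomial 0 1 : ℤ[X]) ≠ 0 := by
      rw [Ne, monomial_eq_zero_iff]; exact one_ne_zero
    rw [addSingles_succ, vmax_low_union hk ha (N := 1), ih, vmax_singleton_pos hk ha h1]
    · ring
    · intro u hu m hm
      rw [Finset.mem_singleton] at hu
      rw [hu, coeff_monomial, if_neg (by omega)]
    · rw [Finset.mem_singleton]
      exact fun h => h1 h.symm
    · exact zero_notMem_addSingles hW0 t
    · exact tight_singleton h1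
    · exact Finset.Nonempty.inr (hne.image _)

theorem card_addSingles {W : Finset ℤ[X]} (t : ℕ) : (addSingles t W).card = t + W.card := by
  unfold addSingles
  rw [card_low_union, Finset.card_image_of_injective, Finset.card_range]
  · intro i j h
    rcases (monomial_eq_monomial_iff).1 h with ⟨h2, -⟩ | ⟨h2, -⟩
    · exact h2
    · exact absurd h2 one_ne_zero
  · intro u hu m hm
    obtain ⟨j, hj, rfl⟩ := Finset.mem_image.1 hu
    rw [Finset.mem_range] at hj
    rw [coeff_monomial, if_neg (by omega)]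
  · intro h
    obtain ⟨j, _, h⟩ := Finset.mem_image.1 h
    rw [monomial_eq_zero_iff] at h
    exact one_ne_zero h

/-! ### the whole instance -/

section

variable {r n : ℕ} {E : Finset (ℕ × ℕ)} {a : Fin (r + 3) → ℤ} {B : Finset ℤ}

/-- the number of positions used by the code of a graph -/
def npos (n r : ℕ) : ℕ := n + n * n * r

theorem pos_lt {e : ℕ × ℕ} (h1 : e.1 < n) (h2 : e.2 < n) {t : ℕ} (ht : t < r) :
    pos n r e t < npos n r := by
  unfold pos npos
  have h3 : e.1 * n + e.2 + 1 ≤ n * n := by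
    have : (e.1 + 1) * n ≤ n * n := Nat.mul_le_mul_right _ h1
    rw [Nat.add_mul, Nat.one_mul] at this
    omega
  have h4 : (e.1 * n + e.2 + 1) * r ≤ n * n * r := Nat.mul_le_mul_right _ h3
  rw [Nat.add_mul (e.1 * n + e.2) 1 r, Nat.one_mul] at h4
  omega

theorem code_low (hE : IsEdges n E) : ∀ u ∈ code n a E, u ∈ lowSub (npos n r) := by
  intro u hu
  obtain ⟨y, hy, rfl⟩ := Finset.mem_image.1 hu
  rw [mem_lowSub]
  intro m hm
  have hn : n ≤ npos n r := Nat.le_add_right _ _
  rcases mem_names.1 hy with ⟨i, hi, rfl⟩ | ⟨e, he, rfl | ⟨t, ht, rfl⟩⟩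
  · simp only [el]
    rw [coeff_monomial, if_neg (by omega)]
  · have hee := hE e he
    simp only [el, coeff_neg, coeff_add, coeff_monomial, finsetSum_coeff]
    rw [if_neg (by omega), if_neg (by omega), Finset.sum_eq_zero]
    · simp
    · intro t ht
      rw [Finset.mem_range] at ht
      have := pos_lt (show e.1 < n by omega) hee.2 ht
      rw [if_neg (by omega)]
  · have hee := hE e he
    have := pos_lt (show e.1 < n by omega) hee.2 ht
    simp only [el]
    rw [coeff_monomial, if_neg (by omega)]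

/-- The instance: `t` generic elements, the code of the graph, `m` generic copies of `B`. -/
noncomputable def whole (a : Fin (r + 3) → ℤ) (n : ℕ) (E : Finset (ℕ × ℕ)) (B : Finset ℤ)
    (t m : ℕ) : Finset ℤ[X] :=
  addSingles t (code n a E ∪ (pad B m).image (shift (npos n r)))

theorem vmax_whole (hE : IsEdges n E) (ha : ∀ i, a i ≠ 0) (ha01 : cf a 0 + cf a 1 ≠ 0)
    (hs : ∑ i, a i ≠ 0) (hB : B.Nonempty) (hB0 : 0 ∉ B) {t m : ℕ} (hm : 0 < m) :
    vmax a (whole a n E B t m) = t + (vmax a (code n a E) + vmax a (pad B m)) := by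
  have h1 := zero_notMem_code (r := r) hE ha
  have h2 : 0 ∉ pad B m := zero_notMem_padOf fun _ => hB0
  unfold whole
  rw [vmax_addSingles (by omega) hs _ _, vmax_low_union (by omega) hs (code_low hE) h1 h2
    (code_tight hE ha ha01) (pad_nonempty hB hm)]
  · rw [Finset.mem_union, not_or]
    exact ⟨h1, zero_notMem_shift h2 _⟩
  · exact Finset.Nonempty.inr ((pad_nonempty hB hm).image _)

theorem card_whole (hE : IsEdges n E) (ha : ∀ i, a i ≠ 0) (hB0 : 0 ∉ B) (t m : ℕ) :
    (whole a n E B t m).card = t + (n + E.card * (r + 1) + m * B.card) := by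
  unfold whole
  rw [card_addSingles, card_low_union (code_low hE) (zero_notMem_code hE ha), card_code hE ha,
    card_pad hB0]

theorem zero_notMem_whole (hE : IsEdges n E) (ha : ∀ i, a i ≠ 0) (hB0 : 0 ∉ B) (t m : ℕ) :
    0 ∉ whole a n E B t m := by
  unfold whole
  refine zero_notMem_addSingles ?_ t
  rw [Finset.mem_union, not_or]
  exact ⟨zero_notMem_code hE ha, zero_notMem_shift (zero_notMem_padOf fun _ => hB0) _⟩

/-- a bound for the coefficients -/
def bnd (a : Fin (r + 3) → ℤ) (B : Finset ℤ) : ℕ :=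
  1 + ∑ i, (a i).natAbs + ∑ b ∈ B, b.natAbs

theorem BddBy.shift {C : ℕ} {W : Finset ℤ[X]} (h : BddBy C W) (d : ℕ) :
    BddBy C (W.image (shift d)) := by
  intro p hp m
  obtain ⟨w, hw, rfl⟩ := Finset.mem_image.1 hp
  rw [shift_apply, coeff_X_pow_mul']
  split_ifs
  · exact h w hw _
  · simp

theorem BddBy.union {C : ℕ} {U W : Finset ℤ[X]} (hU : BddBy C U) (hW : BddBy C W) :
    BddBy C (U ∪ W) := by
  intro p hp
  rcases Finset.mem_union.1 hp with h | h
  · exact hU p h
  · exact hW p h

theorem abs_cf_le (a : Fin (r + 3) → ℤ) {t : ℕ} : |cf a t| ≤ ∑ i, |a i| := by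
  unfold cf
  split_ifs with h
  · exact Finset.single_le_sum (f := fun i => |a i|) (fun i _ => abs_nonneg _) (Finset.mem_univ _)
  · rw [abs_zero]
    exact Finset.sum_nonneg fun i _ => abs_nonneg _

theorem sum_abs_eq (a : Fin (r + 3) → ℤ) : ∑ i, |a i| = ∑ i ∈ Finset.range (r + 3), |cf a i| := by
  rw [← Fin.sum_univ_eq_sum_range (fun i => |cf a i|)]
  exact Finset.sum_congr rfl fun i _ => by rw [cf_coe]

theorem code_bdd (B : Finset ℤ) : BddBy (bnd a B) (code n a E) := by
  have hb : ∑ i, |a i| ≤ (bnd a B : ℤ) := by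
    unfold bnd
    push_cast
    have : 0 ≤ ∑ b ∈ B, |b| := Finset.sum_nonneg fun i _ => abs_nonneg _
    omega
  intro p hp m
  obtain ⟨y, hy, rfl⟩ := Finset.mem_image.1 hp
  refine le_trans ?_ hb
  rcases y with i | ⟨e, t⟩ | e
  · simp only [el]
    rw [coeff_monomial]
    split_ifs
    · exact abs_cf_le a
    · rw [abs_zero]; exact Finset.sum_nonneg fun i _ => abs_nonneg _
  · simp only [el]
    rw [coeff_monomial]
    split_ifs
    · exact abs_cf_le a
    · rw [abs_zero]; exact Finset.sum_nonneg fun i _ => abs_nonneg _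
  · simp only [el, coeff_neg, coeff_add, coeff_monomial, finsetSum_coeff, abs_neg]
    rw [sum_abs_eq, Finset.sum_range_succ, Finset.sum_range_succ', Finset.sum_range_succ']
    have h1 : |if e.1 = m then cf a 0 else 0| ≤ |cf a 0| := by
      split_ifs
      · exact le_rfl
      · rw [abs_zero]; exact abs_nonneg _
    have h2 : |if e.2 = m then cf a 1 else 0| ≤ |cf a 1| := by
      split_ifs
      · exact le_rfl
      · rw [abs_zero]; exact abs_nonneg _
    have h3 : |∑ t ∈ Finset.range r, if pos n r e t = m then cf a (t + 2) else 0| ≤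
        ∑ t ∈ Finset.range r, |cf a (t + 1 + 1)| := by
      refine (Finset.abs_sum_le_sum_abs _ _).trans (Finset.sum_le_sum fun t _ => ?_)
      split_ifs
      · exact le_rfl
      · rw [abs_zero]; exact abs_nonneg _
    have h4 := abs_nonneg (cf a (r + 2))
    have h5 := abs_add_le ((if e.1 = m then cf a 0 else 0) + (if e.2 = m then cf a 1 else 0))
      (∑ t ∈ Finset.range r, if pos n r e t = m then cf a (t + 2) else 0)
    have h6 := abs_add_le (if e.1 = m then cf a 0 else 0) (if e.2 = m then cf a 1 else 0)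
    simp only [zero_add]
    linarith

theorem pad_bdd (a : Fin (r + 3) → ℤ) (m : ℕ) : BddBy (bnd a B) (pad B m) := by
  intro p hp j
  obtain ⟨i, _, b, hb, rfl⟩ := mem_padOf.1 hp
  rw [coeff_monomial]
  have h1 : |b| ≤ ∑ b ∈ B, |b| :=
    Finset.single_le_sum (f := fun b => |b|) (fun i _ => abs_nonneg _) hb
  have h2 : 0 ≤ ∑ i, |a i| := Finset.sum_nonneg fun i _ => abs_nonneg _
  unfold bnd
  push_cast
  have h3 := abs_nonneg b
  split_ifs
  · omega
  · rw [abs_zero]; omega

theorem whole_bdd (t m : ℕ) : BddBy (bnd a B) (whole a n E B t m) := by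
  unfold whole addSingles
  refine BddBy.union ?_ (BddBy.shift (BddBy.union (code_bdd B) (BddBy.shift (pad_bdd a m) _)) _)
  intro p hp j
  obtain ⟨i, _, rfl⟩ := Finset.mem_image.1 hp
  rw [coeff_monomial]
  unfold bnd
  push_cast
  have h1 : 0 ≤ ∑ i, |a i| := Finset.sum_nonneg fun i _ => abs_nonneg _
  have h2 : 0 ≤ ∑ b ∈ B, |b| := Finset.sum_nonneg fun i _ => abs_nonneg _
  split_ifs
  · rw [abs_one]; omega
  · rw [abs_zero]; omega

/-- the base -/
def base (a : Fin (r + 3) → ℤ) (B : Finset ℤ) : ℕ := (2 + ∑ i, (a i).natAbs) * bnd a B + 1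

theorem base_gt (a : Fin (r + 3) → ℤ) (B : Finset ℤ) : 2 * (bnd a B : ℤ) < (base a B : ℤ) := by
  unfold base
  push_cast
  have h1 : (0 : ℤ) ≤ ∑ i, |a i| := Finset.sum_nonneg fun i _ => abs_nonneg _
  have h2 : (0 : ℤ) ≤ bnd a B := by positivity
  nlinarith

theorem base_gt' (a : Fin (r + 3) → ℤ) (B : Finset ℤ) :
    (∑ i, |a i|) * (bnd a B : ℤ) < (base a B : ℤ) := by
  unfold base
  push_cast
  have h1 : (0 : ℤ) ≤ ∑ i, |a i| := Finset.sum_nonneg fun i _ => abs_nonneg _
  have h2 : (0 : ℤ) ≤ bnd a B := by positivity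
  nlinarith

/-- The instance as a set of integers. -/
noncomputable def wholeZ (a : Fin (r + 3) → ℤ) (n : ℕ) (E : Finset (ℕ × ℕ)) (B : Finset ℤ)
    (t m : ℕ) : Finset ℤ :=
  (whole a n E B t m).image (eval (base a B : ℤ))

theorem vmax_wholeZ (t m : ℕ) : vmax a (wholeZ a n E B t m) = vmax a (whole a n E B t m) :=
  vmax_eval (by omega) (whole_bdd t m) (base_gt a B) (base_gt' a B)

theorem card_wholeZ (t m : ℕ) : (wholeZ a n E B t m).card = (whole a n E B t m).card :=
  Finset.card_image_of_injOn (eval_injOn (whole_bdd t m) (base_gt a B))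

theorem zero_notMem_wholeZ (hE : IsEdges n E) (ha : ∀ i, a i ≠ 0) (hB0 : 0 ∉ B) (t m : ℕ) :
    0 ∉ wholeZ a n E B t m := by
  intro h
  obtain ⟨p, hp, h⟩ := Finset.mem_image.1 h
  refine eval_ne_zero (whole_bdd t m) (base_gt a B) hp ?_ h
  rintro rfl
  exact zero_notMem_whole hE ha hB0 t m hp

end

end Pool.Agent.H76.SF
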