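import Mathlib

/-!
# Solution-free sets for homogeneous linear equations, in abelian groups
-/

set_option autoImplicit false

namespace Pool.Agent.H76.SF

open Finset

variable {k : ℕ} {M N : Type*} [AddCommGroup M] [AddCommGroup N]

/-- `A` contains no solution of the equation with coefficients `a`. -/
def VFree (a : Fin k → ℤ) (A : Finset M) : Prop :=
  ∀ x : Fin k → M, (∀ i, x i ∈ A) → ∑ i, a i • x i ≠ 0

open Classical in
/-- The largest size of a solution-free subset. -/
noncomputable def vmax (a : Fin k → ℤ) (A : Finset M) : ℕ :=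
  (A.powerset.filter (VFree a)).sup Finset.card

theorem VFree.mono {a : Fin k → ℤ} {A B : Finset M} (h : VFree a B) (hAB : A ⊆ B) : VFree a A :=
  fun x hx => h x fun i => hAB (hx i)

theorem card_le_vmax {a : Fin k → ℤ} {A B : Finset M} (hBA : B ⊆ A) (hB : VFree a B) :
    B.card ≤ vmax a A := by
  classical
  unfold vmax
  exact Finset.le_sup (f := Finset.card) (by simp [hBA, hB])

theorem exists_vmax (a : Fin k → ℤ) (hk : 0 < k) (A : Finset M) :
    ∃ B ⊆ A, VFree a B ∧ B.card = vmax a A := by
  classical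
  have hne : (A.powerset.filter (VFree a)).Nonempty := by
    refine ⟨∅, ?_⟩
    simp only [Finset.mem_filter, Finset.mem_powerset, Finset.empty_subset, true_and]
    intro x hx
    exact absurd (hx ⟨0, hk⟩) (Finset.notMem_empty _)
  obtain ⟨B, hB, h⟩ := Finset.exists_mem_eq_sup _ hne (Finset.card : Finset M → ℕ)
  simp only [Finset.mem_filter, Finset.mem_powerset] at hB
  refine ⟨B, hB.1, hB.2, ?_⟩
  unfold vmax
  rw [h]

theorem vmax_le_iff {a : Fin k → ℤ} (hk : 0 < k) {A : Finset M} {n : ℕ} :
    vmax a A ≤ n ↔ ∀ B ⊆ A, VFree a B → B.card ≤ n := by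
  constructor
  · intro h B hB hf
    exact (card_le_vmax hB hf).trans h
  · intro h
    obtain ⟨B, hB, hf, hc⟩ := exists_vmax a hk A
    rw [← hc]
    exact h B hB hf

theorem le_vmax_iff {a : Fin k → ℤ} (hk : 0 < k) {A : Finset M} {n : ℕ} :
    n ≤ vmax a A ↔ ∃ B ⊆ A, VFree a B ∧ n ≤ B.card := by
  constructor
  · intro h
    obtain ⟨B, hB, hf, hc⟩ := exists_vmax a hk A
    exact ⟨B, hB, hf, by omega⟩
  · rintro ⟨B, hB, hf, hc⟩
    exact hc.trans (card_le_vmax hB hf)

theorem vmax_mono {a : Fin k → ℤ} (hk : 0 < k) {A B : Finset M} (h : A ⊆ B) :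
    vmax a A ≤ vmax a B := by
  rw [vmax_le_iff hk]
  intro C hC hf
  exact card_le_vmax (hC.trans h) hf

/-- Transport along a map which is injective on `A` and respects the solutions in `A`. -/
theorem vmax_image [DecidableEq N] {a : Fin k → ℤ} (hk : 0 < k) {A : Finset M} (f : M → N)
    (hinj : Set.InjOn f A)
    (hsol : ∀ x : Fin k → M, (∀ i, x i ∈ A) → (∑ i, a i • f (x i) = 0 ↔ ∑ i, a i • x i = 0)) :
    vmax a (A.image f) = vmax a A := by
  classical
  apply le_antisymm
  · rw [vmax_le_iff hk]
    intro B hB hf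
    obtain ⟨C, hC, rfl⟩ := Finset.subset_image_iff.1 hB
    have hC' : (C : Set M) ⊆ A := by exact_mod_cast hC
    rw [Finset.card_image_of_injOn (hinj.mono hC')]
    refine card_le_vmax (by exact_mod_cast hC) ?_
    intro x hx
    rw [Ne, ← hsol x fun i => hC' (hx i)]
    exact hf _ fun i => Finset.mem_image_of_mem _ (hx i)
  · rw [vmax_le_iff hk]
    intro B hB hf
    rw [← Finset.card_image_of_injOn (f := f) (hinj.mono (by exact_mod_cast hB))]
    refine card_le_vmax (Finset.image_subset_image hB) ?_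
    intro y hy
    have : ∀ i, ∃ z ∈ B, f z = y i := fun i => by simpa using hy i
    choose z hz hzy using this
    have h1 := (hsol z fun i => hB (hz i)).not.2 (hf z hz)
    simpa only [hzy] using h1

theorem vmax_image_hom [DecidableEq N] {a : Fin k → ℤ} (hk : 0 < k) {A : Finset M} (f : M →+ N)
    (hinj : Function.Injective f) : vmax a (A.image f) = vmax a A := by
  refine vmax_image hk f (hinj.injOn) fun x _ => ?_
  rw [← map_eq_zero_iff f hinj, map_sum]
  simp only [map_zsmul]

/-- A set is tight when its only partial solutions are those with vanishing sum of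
coefficients. -/
def Tight (a : Fin k → ℤ) (U : Finset M) : Prop :=
  ∀ (P : Finset (Fin k)) (x : Fin k → M), (∀ i ∈ P, x i ∈ U) → P ≠ Finset.univ →
    ∑ i ∈ P, a i • x i = 0 → ∑ i ∈ P, a i = 0

/-- The two sets generate independent subgroups (stated by two subgroups). -/
theorem VFree.union [DecidableEq M] {a : Fin k → ℤ} {U W : Finset M} (S T : AddSubgroup M)
    (hST : Disjoint S T) (hU : ∀ u ∈ U, u ∈ S) (hW : ∀ w ∈ W, w ∈ T) (ht : Tight a U)
    (hfU : VFree a U) (hfW : VFree a W) (hne : W.Nonempty) :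
    VFree a (U ∪ W) := by
  classical
  intro x hx h0
  let P : Finset (Fin k) := Finset.univ.filter fun i => x i ∈ U
  have hQ : ∀ i ∉ P, x i ∈ W := by
    intro i hi
    have := hx i
    rw [Finset.mem_union] at this
    simp only [P, Finset.mem_filter, Finset.mem_univ, true_and] at hi
    tauto
  have hP : ∀ i ∈ P, x i ∈ U := by
    intro i hi
    simpa [P] using hi
  have hsplit := Finset.sum_add_sum_compl P fun i => a i • x i
  rw [h0] at hsplit
  have h1 : ∑ i ∈ P, a i • x i ∈ S :=
    AddSubgroup.sum_mem _ fun i hi => AddSubgroup.zsmul_mem _ (hU _ (hP i hi)) _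
  have h2 : ∑ i ∈ Pᶜ, a i • x i ∈ T :=
    AddSubgroup.sum_mem _ fun i hi =>
      AddSubgroup.zsmul_mem _ (hW _ (hQ i (by simpa using hi))) _
  have h3 : ∑ i ∈ P, a i • x i = 0 := by
    have h4 : ∑ i ∈ P, a i • x i = -∑ i ∈ Pᶜ, a i • x i := eq_neg_of_add_eq_zero_left hsplit
    have h5 : ∑ i ∈ P, a i • x i ∈ T := by rw [h4]; exact AddSubgroup.neg_mem _ h2
    exact AddSubgroup.disjoint_def.1 hST h1 h5
  have h4 : ∑ i ∈ Pᶜ, a i • x i = 0 := by rw [h3, zero_add] at hsplit; exact hsplit
  by_cases hPu : P = Finset.univ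
  · refine hfU x (fun i => hP i (by rw [hPu]; exact Finset.mem_univ i)) ?_
    rw [hPu] at h3
    exact h3
  · have h5 := ht P x hP hPu h3
    obtain ⟨w, hw⟩ := hne
    refine hfW (fun i => if i ∈ P then w else x i) (fun i => ?_) ?_
    · split_ifs with h
      · exact hw
      · exact hQ i h
    · rw [← Finset.sum_add_sum_compl P]
      have e1 : ∑ i ∈ P, a i • (if i ∈ P then w else x i) = (∑ i ∈ P, a i) • w := by
        rw [Finset.sum_smul]
        exact Finset.sum_congr rfl fun i hi => by rw [if_pos hi]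
      have e2 : ∑ i ∈ Pᶜ, a i • (if i ∈ P then w else x i) = ∑ i ∈ Pᶜ, a i • x i :=
        Finset.sum_congr rfl fun i hi => by rw [if_neg (by simpa using hi)]
      rw [e1, e2, h4, h5, zero_smul, add_zero]

theorem VFree.singleton {a : Fin k → ℤ} [IsAddTorsionFree M] (ha : ∑ i, a i ≠ 0) {w : M}
    (hw : w ≠ 0) : VFree a {w} := by
  intro x hx h0
  have : ∀ i, x i = w := fun i => by simpa using hx i
  simp only [this, ← Finset.sum_smul] at h0
  rcases smul_eq_zero.1 h0 with h | h
  · exact ha h
  · exact hw h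

theorem tight_singleton {a : Fin k → ℤ} [IsAddTorsionFree M] {w : M} (hw : w ≠ 0) :
    Tight a {w} := by
  intro P x hx _ h0
  have h1 : ∑ i ∈ P, a i • x i = (∑ i ∈ P, a i) • w := by
    rw [Finset.sum_smul]
    exact Finset.sum_congr rfl fun i hi => by rw [show x i = w by simpa using hx i hi]
  rw [h1] at h0
  rcases smul_eq_zero.1 h0 with h | h
  · exact h
  · exact absurd h hw

/-- The union of a tight set and an independent set. -/
theorem vmax_union [DecidableEq M] {a : Fin k → ℤ} [IsAddTorsionFree M] (hk : 0 < k)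
    (ha : ∑ i, a i ≠ 0) {U W : Finset M} (S T : AddSubgroup M) (hST : Disjoint S T)
    (hU : ∀ u ∈ U, u ∈ S) (hW : ∀ w ∈ W, w ∈ T) (hU0 : 0 ∉ U) (hW0 : 0 ∉ W) (ht : Tight a U)
    (hne : W.Nonempty) : vmax a (U ∪ W) = vmax a U + vmax a W := by
  classical
  have hdis : Disjoint U W := by
    rw [Finset.disjoint_left]
    intro x hx hx'
    have := AddSubgroup.disjoint_def.1 hST (hU x hx) (hW x hx')
    subst this
    exact hU0 hx
  apply le_antisymm
  · rw [vmax_le_iff hk]
    intro B hB hf
    have h1 : B = (B ∩ U) ∪ (B ∩ W) := by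
      rw [← Finset.inter_union_distrib_left, Finset.inter_eq_left.2 hB]
    rw [h1]
    refine (Finset.card_union_le _ _).trans (Nat.add_le_add ?_ ?_)
    · exact card_le_vmax Finset.inter_subset_right (hf.mono Finset.inter_subset_left)
    · exact card_le_vmax Finset.inter_subset_right (hf.mono Finset.inter_subset_left)
  · obtain ⟨B, hB, hfB, hcB⟩ := exists_vmax a hk U
    obtain ⟨C, hC, hfC, hcC⟩ := exists_vmax a hk W
    have hCne : C.Nonempty := by
      rw [← Finset.card_pos, hcC]
      obtain ⟨w, hw⟩ := hne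
      have h1 : ({w} : Finset M).card ≤ vmax a W :=
        card_le_vmax (by simpa using hw) (VFree.singleton ha (by rintro rfl; exact hW0 hw))
      rw [Finset.card_singleton] at h1
      omega
    rw [← hcB, ← hcC, ← Finset.card_union_of_disjoint (hdis.mono hB hC)]
    refine card_le_vmax (Finset.union_subset_union hB hC) ?_
    refine VFree.union S T hST (fun u hu => hU u (hB hu)) (fun w hw => hW w (hC hw)) ?_ hfB hfC hCne
    intro P x hx
    exact ht P x fun i hi => hB (hx i hi)

end Pool.Agent.H76.SF
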