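import Mathlib

/-!
# A counting lemma for weighted graphs
-/

set_option autoImplicit false

namespace Pool.Agent.H76.SF

open Finset

/-- the equation at the vertex `v` -/
def vEq (F : Finset (ℕ × ℕ)) (A : ℕ × ℕ → ℤ) (a₀ a₁ : ℤ) (v : ℕ) : ℤ :=
  a₀ * ∑ e ∈ F, (if e.1 = v then A e else 0) + a₁ * ∑ e ∈ F, (if e.2 = v then A e else 0)

theorem graph_count_two {e f : ℕ × ℕ} (he : e.1 < e.2) (hf : f.1 < f.2) (hef : e ≠ f)
    {A : ℕ × ℕ → ℤ} (hAe : A e ≠ 0) (hAf : A f ≠ 0) {a₀ a₁ : ℤ} (h0 : a₀ ≠ 0) (h1 : a₁ ≠ 0)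
    {U : Finset ℕ} (hU : ∀ v ∉ U, vEq {e, f} A a₀ a₁ v = 0) : 2 ≤ U.card := by
  classical
  have hv : ∀ v, vEq {e, f} A a₀ a₁ v = a₀ * ((if e.1 = v then A e else 0) +
      (if f.1 = v then A f else 0)) + a₁ * ((if e.2 = v then A e else 0) +
      (if f.2 = v then A f else 0)) := by
    intro v
    unfold vEq
    rw [Finset.sum_pair hef, Finset.sum_pair hef]
  have key : ∀ u u' : ℕ, u ≠ u' → vEq {e, f} A a₀ a₁ u ≠ 0 → vEq {e, f} A a₀ a₁ u' ≠ 0 →
      2 ≤ U.card := by
    intro u u' huu hu hu'
    have h2 : ({u, u'} : Finset ℕ) ⊆ U := by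
      intro w hw
      rw [Finset.mem_insert, Finset.mem_singleton] at hw
      rcases hw with rfl | rfl
      · by_contra hc; exact hu (hU _ hc)
      · by_contra hc; exact hu' (hU _ hc)
    have h3 := Finset.card_le_card h2
    rwa [Finset.card_pair huu] at h3
  have hm := mul_ne_zero h0 hAe
  have hm' := mul_ne_zero h0 hAf
  have hn := mul_ne_zero h1 hAe
  have hn' := mul_ne_zero h1 hAf
  rcases lt_trichotomy e.1 f.1 with h | h | h <;> rcases lt_trichotomy e.2 f.2 with h' | h' | h'
  · refine key e.1 f.2 (by omega) ?_ ?_ <;> rw [hv]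
    · rw [if_pos rfl, if_neg (by omega), if_neg (by omega), if_neg (by omega)]; simpa using hm
    · rw [if_neg (by omega), if_neg (by omega), if_neg (by omega), if_pos rfl]; simpa using hn'
  · refine key e.1 f.1 (by omega) ?_ ?_ <;> rw [hv]
    · rw [if_pos rfl, if_neg (by omega), if_neg (by omega), if_neg (by omega)]; simpa using hm
    · rw [if_neg (by omega), if_pos rfl, if_neg (by omega), if_neg (by omega)]; simpa using hm'
  · refine key e.1 e.2 (by omega) ?_ ?_ <;> rw [hv]
    · rw [if_pos rfl, if_neg (by omega), if_neg (by omega), if_neg (by omega)]; simpa using hm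
    · rw [if_neg (by omega), if_neg (by omega), if_pos rfl, if_neg (by omega)]; simpa using hn
  · refine key e.2 f.2 (by omega) ?_ ?_ <;> rw [hv]
    · rw [if_neg (by omega), if_neg (by omega), if_pos rfl, if_neg (by omega)]; simpa using hn
    · rw [if_neg (by omega), if_neg (by omega), if_neg (by omega), if_pos rfl]; simpa using hn'
  · exact absurd (Prod.ext h h') hef
  · refine key e.2 f.2 (by omega) ?_ ?_ <;> rw [hv]
    · rw [if_neg (by omega), if_neg (by omega), if_pos rfl, if_neg (by omega)]; simpa using hn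
    · rw [if_neg (by omega), if_neg (by omega), if_neg (by omega), if_pos rfl]; simpa using hn'
  · refine key f.1 f.2 (by omega) ?_ ?_ <;> rw [hv]
    · rw [if_neg (by omega), if_pos rfl, if_neg (by omega), if_neg (by omega)]; simpa using hm'
    · rw [if_neg (by omega), if_neg (by omega), if_neg (by omega), if_pos rfl]; simpa using hn'
  · refine key e.1 f.1 (by omega) ?_ ?_ <;> rw [hv]
    · rw [if_pos rfl, if_neg (by omega), if_neg (by omega), if_neg (by omega)]; simpa using hm
    · rw [if_neg (by omega), if_pos rfl, if_neg (by omega), if_neg (by omega)]; simpa using hm'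
  · refine key f.1 e.2 (by omega) ?_ ?_ <;> rw [hv]
    · rw [if_neg (by omega), if_pos rfl, if_neg (by omega), if_neg (by omega)]; simpa using hm'
    · rw [if_neg (by omega), if_neg (by omega), if_pos rfl, if_neg (by omega)]; simpa using hn

theorem graph_count_three {F : Finset (ℕ × ℕ)} (hF : ∀ e ∈ F, e.1 < e.2) (hc : F.card = 3)
    {A : ℕ × ℕ → ℤ} (hA : ∀ e ∈ F, A e ≠ 0) {a₀ a₁ : ℤ} (h0 : a₀ ≠ 0) (h1 : a₁ ≠ 0)
    (h01 : a₀ + a₁ ≠ 0) (hU : ∀ v, vEq F A a₀ a₁ v = 0) : False := by
  classical
  have hne : F.Nonempty := by rw [← Finset.card_pos]; omega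
  obtain ⟨e₀, he₀, hmin⟩ := Finset.exists_min_image F (fun e => e.1) hne
  obtain ⟨f₀, hf₀, hmax⟩ := Finset.exists_max_image F (fun e => e.2) hne
  set i := e₀.1 with hi
  set l := f₀.2 with hl
  have s1 : ∑ e ∈ F.filter (fun e => e.1 = i), A e = 0 := by
    have h := hU i
    unfold vEq at h
    have h2 : ∑ e ∈ F, (if e.2 = i then A e else 0) = 0 := by
      refine Finset.sum_eq_zero fun e he => if_neg ?_
      have := hF e he
      have := hmin e he
      omega
    rw [h2, mul_zero, add_zero, ← Finset.sum_filter] at h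
    exact (mul_eq_zero.1 h).resolve_left h0
  have s2 : ∑ e ∈ F.filter (fun e => e.2 = l), A e = 0 := by
    have h := hU l
    unfold vEq at h
    have h2 : ∑ e ∈ F, (if e.1 = l then A e else 0) = 0 := by
      refine Finset.sum_eq_zero fun e he => if_neg ?_
      have := hF e he
      have := hmax e he
      omega
    rw [h2, mul_zero, zero_add, ← Finset.sum_filter] at h
    exact (mul_eq_zero.1 h).resolve_left h1
  have card2 : ∀ S : Finset (ℕ × ℕ), S ⊆ F → S.Nonempty → ∑ e ∈ S, A e = 0 → 2 ≤ S.card := by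
    intro S hS hSne hs
    by_contra hcon
    have h2 : S.card = 1 := by
      have := Finset.card_pos.2 hSne
      omega
    obtain ⟨x, rfl⟩ := Finset.card_eq_one.1 h2
    rw [Finset.sum_singleton] at hs
    exact hA x (hS (Finset.mem_singleton_self x)) hs
  have c1 := card2 _ (Finset.filter_subset _ F) ⟨e₀, by simp [he₀, hi]⟩ s1
  have c2 := card2 _ (Finset.filter_subset _ F) ⟨f₀, by simp [hf₀, hl]⟩ s2
  have c3 := Finset.card_union_add_card_inter (F.filter fun e => e.1 = i)
    (F.filter fun e => e.2 = l)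
  have c4 : ((F.filter fun e => e.1 = i) ∪ (F.filter fun e => e.2 = l)).card ≤ 3 := by
    rw [← hc]
    exact Finset.card_le_card (Finset.union_subset (Finset.filter_subset _ _)
      (Finset.filter_subset _ _))
  have c5 : 0 < ((F.filter fun e => e.1 = i) ∩ (F.filter fun e => e.2 = l)).card := by omega
  obtain ⟨x, hx⟩ := Finset.card_pos.1 c5
  simp only [Finset.mem_inter, Finset.mem_filter] at hx
  obtain ⟨⟨hxF, hx1⟩, -, hx2⟩ := hx
  obtain ⟨y, hy, hyx⟩ := Finset.exists_mem_ne (by omega : 1 < (F.filter fun e => e.1 = i).card) x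
  obtain ⟨z, hz, hzx⟩ := Finset.exists_mem_ne (by omega : 1 < (F.filter fun e => e.2 = l).card) x
  simp only [Finset.mem_filter] at hy hz
  have hyz : y ≠ z := by
    rintro rfl
    exact hyx (Prod.ext (hy.2.trans hx1.symm) (hz.2.trans hx2.symm))
  have hFe : F = {x, y, z} := by
    symm
    apply Finset.eq_of_subset_of_card_le
    · intro w hw
      simp only [Finset.mem_insert, Finset.mem_singleton] at hw
      rcases hw with rfl | rfl | rfl
      · exact hxF
      · exact hy.1
      · exact hz.1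
    · rw [hc, Finset.card_insert_of_notMem (by simp [hyx.symm, hzx.symm]),
        Finset.card_pair hyz]
  have hv : ∀ v, vEq F A a₀ a₁ v = a₀ * ((if x.1 = v then A x else 0) +
      ((if y.1 = v then A y else 0) + (if z.1 = v then A z else 0))) +
      a₁ * ((if x.2 = v then A x else 0) +
      ((if y.2 = v then A y else 0) + (if z.2 = v then A z else 0))) := by
    intro v
    unfold vEq
    rw [hFe, Finset.sum_insert (by simp [hyx.symm, hzx.symm]), Finset.sum_pair hyz,
      Finset.sum_insert (by simp [hyx.symm, hzx.symm]), Finset.sum_pair hyz]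
  have q1 := hF x hxF
  have q2 := hF y hy.1
  have q3 := hF z hz.1
  have q4 := hmin z hz.1
  have q5 := hmax y hy.1
  have hz1 : z.1 ≠ i := fun h => hzx (Prod.ext (h.trans hx1.symm) (hz.2.trans hx2.symm))
  have hy2 : y.2 ≠ l := fun h => hyx (Prod.ext (hy.2.trans hx1.symm) (h.trans hx2.symm))
  have e1 : A x + A y = 0 := by
    have h := hU i
    rw [hv, if_pos hx1, if_pos hy.2, if_neg hz1, if_neg (by omega), if_neg (by omega),
      if_neg (by omega)] at h
    simp only [add_zero, mul_zero] at h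
    exact (mul_eq_zero.1 h).resolve_left h0
  have e2 : A x + A z = 0 := by
    have h := hU l
    rw [hv, if_pos hx2, if_pos hz.2, if_neg hy2, if_neg (by omega), if_neg (by omega),
      if_neg (by omega)] at h
    simp only [add_zero, zero_add, mul_zero] at h
    exact (mul_eq_zero.1 h).resolve_left h1
  have h := hU z.1
  have hzl := hz.2
  have hyi := hy.2
  rw [hv, if_neg (by omega), if_neg (by omega), if_pos rfl, if_neg (by omega),
    if_neg (show z.2 ≠ z.1 by omega)] at h
  by_cases hyz' : y.2 = z.1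
  · rw [if_pos hyz'] at h
    have h5 : (a₀ + a₁) * A z = 0 := by
      have : A y = A z := by linarith
      rw [this] at h
      linarith
    rcases mul_eq_zero.1 h5 with h | h
    · exact h01 h
    · exact hA z hz.1 h
  · rw [if_neg hyz'] at h
    simp only [add_zero, zero_add, mul_zero] at h
    rcases mul_eq_zero.1 h with h | h
    · exact h0 h
    · exact hA z hz.1 h

theorem graph_count {F : Finset (ℕ × ℕ)} (hF : ∀ e ∈ F, e.1 < e.2) (hc : 2 ≤ F.card)
    {A : ℕ × ℕ → ℤ} (hA : ∀ e ∈ F, A e ≠ 0) {a₀ a₁ : ℤ} (h0 : a₀ ≠ 0) (h1 : a₁ ≠ 0)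
    (h01 : a₀ + a₁ ≠ 0) {U : Finset ℕ} (hU : ∀ v ∉ U, vEq F A a₀ a₁ v = 0) :
    4 ≤ F.card + U.card := by
  classical
  by_contra hcon
  have hcard : F.card = 2 ∨ F.card = 3 := by omega
  rcases hcard with h2 | h3
  · obtain ⟨e, f, hef, rfl⟩ := Finset.card_eq_two.1 h2
    have := graph_count_two (hF e (by simp)) (hF f (by simp)) hef (hA e (by simp))
      (hA f (by simp)) h0 h1 hU
    omega
  · have hU0 : U = ∅ := by
      rw [← Finset.card_eq_zero]; omega
    subst hU0
    exact graph_count_three hF h3 hA h0 h1 h01 fun v => hU v (by simp)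

end Pool.Agent.H76.SF
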