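import Pool.Agent.H76.SF.Red

/-!
# The decision problem: hardness and membership
-/

set_option autoImplicit false

namespace Pool.Agent.H76.SF

open Pool.Agent.NPC Pool.Agent.H692R2 Pool.Agent.NPC.R542

section

variable {r : ℕ} (a : Fin (r + 3) → ℤ) (B : Finset ℤ) (p d m₀ g₀ α : ℕ)

theorem sumPos_poly {β : Type} [TEnc β] (M : ℕ) {T t n : β → ℕ} {e : β → ℕ × ℕ}
    (hT : UPoly T) (ht : NPC.Poly t) (hn : NPC.Poly n) (he : NPC.Poly e) (s : ℕ) (c : ℤ) :
    NPC.Poly (fun x => c * (M : ℤ) ^ (min (t x + pos (n x) r (e x) s) (T x))) := by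
  refine NPC.Poly.imul (NPC.Poly.const c) (polyPow M ?_ hT)
  unfold pos
  exact NPC.Poly.add ht (NPC.Poly.add (NPC.Poly.add hn (NPC.Poly.mul (NPC.Poly.add
    (NPC.Poly.mul (NPC.Poly.fst he) hn) (NPC.Poly.snd he)) (NPC.Poly.const r)))
    (NPC.Poly.const s))

/-- A list built by a fixed finite sequence of polynomial-time functions. -/
theorem listOf_poly {β γ : Type} [TEnc β] [TEnc γ] (L : List ℕ) (F : ℕ → β → γ)
    (hF : ∀ s, NPC.Poly (F s)) : NPC.Poly (fun x => L.map fun s => F s x) := by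
  induction L with
  | nil => exact NPC.Poly.const []
  | cons s L ih => exact NPC.Poly.cons (hF s) ih

theorem outB_poly {β : Type} [TEnc β] (M : ℕ) {T n t m : β → ℕ} {es : β → List (ℕ × ℕ)}
    (bs : List ℤ) (hT : UPoly T) (hn : UPoly n) (ht : UPoly t) (hm : UPoly m)
    (hes : NPC.Poly es) :
    NPC.Poly (fun x => outB a M (T x) (n x) (t x) (m x) (es x) bs) := by
  unfold outB
  refine NPC.Poly.append (NPC.Poly.map (F := fun x j => (M : ℤ) ^ (min j (T x))) ht.range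
    (polyPow M (NPC.Poly.snd NPC.Poly.id) (hT.comp (NPC.Poly.fst NPC.Poly.id)))) ?_
  refine NPC.Poly.append (NPC.Poly.append ?_ ?_) ?_
  · refine NPC.Poly.map (F := fun x i => cf a (r + 2) * (M : ℤ) ^ (min (t x + i) (T x)))
      hn.range ?_
    exact NPC.Poly.imul (NPC.Poly.const _) (polyPow M (NPC.Poly.add
      (ht.toPoly.comp (NPC.Poly.fst NPC.Poly.id)) (NPC.Poly.snd NPC.Poly.id))
      (hT.comp (NPC.Poly.fst NPC.Poly.id)))
  · have hT' : UPoly (fun y : β × (ℕ × ℕ) => T y.1) := hT.comp (NPC.Poly.fst NPC.Poly.id)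
    have ht' : NPC.Poly (fun y : β × (ℕ × ℕ) => t y.1) :=
      ht.toPoly.comp (NPC.Poly.fst NPC.Poly.id)
    have hn' : NPC.Poly (fun y : β × (ℕ × ℕ) => n y.1) :=
      hn.toPoly.comp (NPC.Poly.fst NPC.Poly.id)
    refine NPC.Poly.flatMap (F := fun x e => (-(cf a 0 * (M : ℤ) ^ (min (t x + e.1) (T x)) +
      cf a 1 * (M : ℤ) ^ (min (t x + e.2) (T x)) +
      ((List.range r).map fun s => cf a (s + 2) *
        (M : ℤ) ^ (min (t x + pos (n x) r e s) (T x))).sum)) ::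
      (List.range r).map (fun s => cf a (r + 2) *
        (M : ℤ) ^ (min (t x + pos (n x) r e s) (T x)))) hes ?_
    refine NPC.Poly.cons (NPC.Poly.ineg (NPC.Poly.iadd (NPC.Poly.iadd ?_ ?_)
      (NPC.Poly.isum ?_))) ?_
    · exact NPC.Poly.imul (NPC.Poly.const _) (polyPow M (NPC.Poly.add ht'
        (NPC.Poly.fst (NPC.Poly.snd NPC.Poly.id))) hT')
    · exact NPC.Poly.imul (NPC.Poly.const _) (polyPow M (NPC.Poly.add ht'
        (NPC.Poly.snd (NPC.Poly.snd NPC.Poly.id))) hT')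
    · exact listOf_poly (β := β × (ℕ × ℕ)) (List.range r) (fun s y => cf a (s + 2) *
        (M : ℤ) ^ (min (t y.1 + pos (n y.1) r y.2 s) (T y.1))) fun s =>
        sumPos_poly M hT' ht' hn' (NPC.Poly.snd NPC.Poly.id) s _
    · exact listOf_poly (β := β × (ℕ × ℕ)) (List.range r) (fun s y => cf a (r + 2) *
        (M : ℤ) ^ (min (t y.1 + pos (n y.1) r y.2 s) (T y.1))) fun s =>
        sumPos_poly M hT' ht' hn' (NPC.Poly.snd NPC.Poly.id) s _
  · refine NPC.Poly.flatMap (F := fun x j => bs.map fun b => b *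
      (M : ℤ) ^ (min (t x + (npos (n x) r + j)) (T x))) hm.range ?_
    refine NPC.Poly.map (l := fun _ : β × ℕ => bs) (F := fun (y : β × ℕ) b => b *
      (M : ℤ) ^ (min (t y.1 + (npos (n y.1) r + y.2)) (T y.1))) (NPC.Poly.const bs) ?_
    refine NPC.Poly.imul (NPC.Poly.snd NPC.Poly.id) (polyPow M ?_
      (hT.comp (NPC.Poly.fst (NPC.Poly.fst NPC.Poly.id))))
    unfold npos
    have hn'' : NPC.Poly (fun y : (β × ℕ) × ℤ => n y.1.1) :=
      hn.toPoly.comp (NPC.Poly.fst (NPC.Poly.fst NPC.Poly.id))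
    exact NPC.Poly.add (ht.toPoly.comp (NPC.Poly.fst (NPC.Poly.fst NPC.Poly.id)))
      (NPC.Poly.add (NPC.Poly.add hn'' (NPC.Poly.mul (NPC.Poly.mul hn'' hn'')
        (NPC.Poly.const r))) (NPC.Poly.snd (NPC.Poly.fst NPC.Poly.id)))

theorem red_poly : NPC.Poly (red a B p d m₀ g₀ α) := by
  have hn : UPoly (fun I : FinGraph × ℕ => I.1.n) := upoly_n (NPC.Poly.fst NPC.Poly.id)
  have ht := upoly_tPar (r := r) B p d m₀ g₀ α
  have hm : UPoly (fun I : FinGraph × ℕ => m₀ + sPar (r := r) p d g₀ I) :=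
    UPoly.add (UPoly.const _) (upoly_sPar p d g₀)
  have hnp : UPoly (fun I : FinGraph × ℕ => npos I.1.n r) :=
    UPoly.add hn (UPoly.mul (UPoly.mul hn hn) (UPoly.const r))
  have hT := UPoly.add ht (UPoly.add hnp hm)
  refine (outB_poly a (base a B) B.toList hT hn ht hm
    (edgesL_poly (NPC.Poly.fst NPC.Poly.id))).congr fun I => ?_
  unfold red
  refine outB_eq a _ _ _ _ _ _ _ (fun e he => ?_) le_rfl
  rw [mem_edgesL] at he
  exact ⟨by omega, he.1.2⟩

end

/-! ### the problem -/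

/-- `S` contains no solution of `∑ a i * x i = 0`. -/
def LFree {k : ℕ} (a : Fin k → ℤ) (S : Finset ℤ) : Prop :=
  ∀ x : Fin k → ℤ, (∀ i, x i ∈ S) → ∑ i, a i * x i ≠ 0

theorem lfree_iff {k : ℕ} {a : Fin k → ℤ} {S : Finset ℤ} : LFree a S ↔ VFree a S := by
  unfold LFree VFree
  simp only [smul_eq_mul]

/-- `ε`-`L`-Free Subset. -/
def FreeSubset {k : ℕ} (a : Fin k → ℤ) (ε : ℚ) (A : List ℤ) : Prop :=
  (A.Nodup ∧ 0 ∉ A) ∧ ∃ S : Finset ℤ, S ⊆ A.toFinset ∧ LFree a S ∧ ε * A.length ≤ S.card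

theorem freeSubset_iff {k : ℕ} (hk : 0 < k) {a : Fin k → ℤ} {p q : ℕ} (hq : 0 < q) {A : List ℤ} :
    FreeSubset a ((p : ℚ) / q) A ↔
      (A.Nodup ∧ 0 ∉ A) ∧ p * A.length ≤ q * vmax a A.toFinset := by
  unfold FreeSubset
  refine and_congr_right fun _ => ?_
  have key : ∀ c : ℕ, ((p : ℚ) / q) * A.length ≤ c ↔ p * A.length ≤ q * c := by
    intro c
    have hq' : (0 : ℚ) < q := by exact_mod_cast hq
    rw [div_mul_eq_mul_div, div_le_iff₀ hq', mul_comm (c : ℚ)]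
    norm_cast
  constructor
  · rintro ⟨S, hS, hf, hc⟩
    rw [key] at hc
    exact hc.trans (Nat.mul_le_mul_left _ (card_le_vmax hS (lfree_iff.1 hf)))
  · intro h
    obtain ⟨S, hS, hf, hc⟩ := exists_vmax a hk A.toFinset
    refine ⟨S, hS, lfree_iff.2 hf, ?_⟩
    rw [key, hc]
    exact h

/-- The hard case: coefficients with `a 0 + a 1 ≠ 0`. -/
theorem hard_main {r : ℕ} (a : Fin (r + 3) → ℤ) (ha : ∀ i, a i ≠ 0) (ha01 : cf a 0 + cf a 1 ≠ 0)
    (hs : ∑ i, a i ≠ 0) {p q : ℕ} (hpq : p < q) {B : Finset ℤ} (hB : B.Nonempty) (hB0 : 0 ∉ B)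
    (hBq : q * vmax a B < p * B.card) : NPHardP (FreeSubset a ((p : ℚ) / q)) := by
  obtain ⟨m₀, g₀, α, hm₀, hα, hpad⟩ := vmax_pad_eq (by omega) hs hB hB0
  obtain ⟨d, rfl⟩ : ∃ d, q = p + d := ⟨q - p, by omega⟩
  have hα' : (p + d) * α < p * B.card := lt_of_le_of_lt (Nat.mul_le_mul_left _ hα) hBq
  refine (HardPr.trans hardPr_indep (f := red a B p d m₀ g₀ α) (Pr' := fun _ => True)
    (red_poly a B p d m₀ g₀ α) (fun _ _ => trivial) fun I hI => ?_).toHardI.toNPHardP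
  rw [freeSubset_iff (by omega) (by omega)]
  rw [← red_correct a B p d m₀ g₀ α ha ha01 hs hB hB0 (by omega) hm₀ hα' hpad I hI.1 hI.2]
  constructor
  · intro h
    exact ⟨⟨red_nodup a B p d m₀ g₀ α ha hB0 I, red_zero a B p d m₀ g₀ α ha hB0 I⟩, h⟩
  · rintro ⟨-, h⟩
    exact h

/-! ### permutation of the coefficients -/

theorem lfree_perm {k : ℕ} (a : Fin k → ℤ) (σ : Equiv.Perm (Fin k)) (S : Finset ℤ) :
    LFree (a ∘ σ) S ↔ LFree a S := by
  unfold LFree
  constructor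
  · intro h x hx h0
    refine h (x ∘ σ) (fun i => hx _) ?_
    rw [← h0]
    exact Equiv.sum_comp σ fun i => a i * x i
  · intro h x hx h0
    refine h (x ∘ σ.symm) (fun i => hx _) ?_
    rw [← h0, ← Equiv.sum_comp σ]
    exact Finset.sum_congr rfl fun i _ => by simp

theorem freeSubset_perm {k : ℕ} (a : Fin k → ℤ) (σ : Equiv.Perm (Fin k)) (ε : ℚ) :
    FreeSubset (a ∘ σ) ε = FreeSubset a ε := by
  funext A
  unfold FreeSubset
  simp only [lfree_perm]

theorem vmax_perm {k : ℕ} (hk : 0 < k) (a : Fin k → ℤ) (σ : Equiv.Perm (Fin k)) (A : Finset ℤ) :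
    vmax (a ∘ σ) A = vmax a A := by
  apply le_antisymm
  · rw [vmax_le_iff hk]
    intro S hS hf
    exact card_le_vmax hS (lfree_iff.1 ((lfree_perm a σ S).1 (lfree_iff.2 hf)))
  · rw [vmax_le_iff hk]
    intro S hS hf
    exact card_le_vmax hS (lfree_iff.1 ((lfree_perm a σ S).2 (lfree_iff.2 hf)))

theorem exists_perm {r : ℕ} (a : Fin (r + 3) → ℤ) (ha : ∀ i, a i ≠ 0) :
    ∃ σ : Equiv.Perm (Fin (r + 3)), cf (a ∘ σ) 0 + cf (a ∘ σ) 1 ≠ 0 := by
  let i0 : Fin (r + 3) := ⟨0, by omega⟩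
  let i1 : Fin (r + 3) := ⟨1, by omega⟩
  let i2 : Fin (r + 3) := ⟨2, by omega⟩
  have hcf : ∀ σ : Equiv.Perm (Fin (r + 3)), cf (a ∘ σ) 0 = a (σ i0) ∧ cf (a ∘ σ) 1 = a (σ i1) := by
    intro σ
    unfold cf
    rw [dif_pos (by omega), dif_pos (by omega)]
    exact ⟨rfl, rfl⟩
  have h01 : i0 ≠ i1 := by simp [i0, i1]
  have h02 : i0 ≠ i2 := by simp [i0, i2]
  have h12 : i1 ≠ i2 := by simp [i1, i2]
  by_cases h1 : a i0 + a i1 ≠ 0
  · exact ⟨1, by rw [(hcf 1).1, (hcf 1).2]; exact h1⟩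
  by_cases h2 : a i0 + a i2 ≠ 0
  · refine ⟨Equiv.swap i1 i2, ?_⟩
    rw [(hcf _).1, (hcf _).2, Equiv.swap_apply_left, Equiv.swap_apply_of_ne_of_ne h01 h02]
    exact h2
  · refine ⟨Equiv.swap i0 i2, ?_⟩
    rw [(hcf _).1, (hcf _).2, Equiv.swap_apply_left, Equiv.swap_apply_of_ne_of_ne h01.symm h12]
    push Not at h1 h2
    have := ha i0
    omega

theorem hard_all {k : ℕ} (hk : 3 ≤ k) (a : Fin k → ℤ) (ha : ∀ i, a i ≠ 0)
    (hs : ∑ i, a i ≠ 0) {p q : ℕ} (hpq : p < q) {B : Finset ℤ} (hB : B.Nonempty) (hB0 : 0 ∉ B)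
    (hBq : q * vmax a B < p * B.card) : NPHardP (FreeSubset a ((p : ℚ) / q)) := by
  obtain ⟨r, rfl⟩ : ∃ r, k = r + 3 := ⟨k - 3, by omega⟩
  obtain ⟨σ, hσ⟩ := exists_perm a ha
  rw [← freeSubset_perm a σ]
  refine hard_main (a ∘ σ) (fun i => ha _) hσ ?_ hpq hB hB0 ?_
  · rw [show ∑ i, (a ∘ σ) i = ∑ i, a i from Equiv.sum_comp σ a]
    exact hs
  · rw [vmax_perm (by omega)]
    exact hBq

/-! ### membership in NP -/

theorem pp_nodup {α β : Type} [TEnc α] [TEnc β] {l : α → List β} (hl : NPC.Poly l) :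
    PP (fun a => (l a).Nodup) := by
  have key : ∀ l : List β,
      (∀ x ∈ l.zipIdx, ∀ y ∈ l.zipIdx, x.1 ≠ y.1 ∨ x.2 = y.2) ↔ l.Nodup := by
    intro l
    rw [List.nodup_iff_injective_getElem]
    constructor
    · intro h i j hij
      have h1 := h (l[i], i.1) (by
        rw [List.mem_zipIdx_iff_getElem?]; simp) (l[j], j.1) (by
        rw [List.mem_zipIdx_iff_getElem?]; simp)
      simp only at h1 hij
      rcases h1 with h1 | h1
      · exact absurd hij h1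
      · exact Fin.ext h1
    · rintro h ⟨x, i⟩ hx ⟨y, j⟩ hy
      rw [List.mem_zipIdx_iff_getElem?] at hx hy
      simp only at hx hy ⊢
      by_cases hxy : x = y
      · right
        obtain ⟨hi, hi'⟩ := List.getElem?_eq_some_iff.1 hx
        obtain ⟨hj, hj'⟩ := List.getElem?_eq_some_iff.1 hy
        have := @h ⟨i, hi⟩ ⟨j, hj⟩ (by simp only; rw [hi', hj', hxy])
        simpa using this
      · exact Or.inl hxy
  refine PP.congr (p := fun a => ∀ x ∈ (l a).zipIdx, ∀ y ∈ (l a).zipIdx, x.1 ≠ y.1 ∨ x.2 = y.2)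
    ?_ (fun a => key _)
  refine PP.ball (r := fun a (x : β × ℕ) => ∀ y ∈ (l a).zipIdx, x.1 ≠ y.1 ∨ x.2 = y.2)
    (NPC.Poly.zipIdx hl) ?_
  refine PP.ball (l := fun z : α × (β × ℕ) => (l z.1).zipIdx)
    (r := fun (z : α × (β × ℕ)) (y : β × ℕ) => z.2.1 ≠ y.1 ∨ z.2.2 = y.2)
    (NPC.Poly.zipIdx (hl.comp (NPC.Poly.fst NPC.Poly.id))) ?_
  exact PP.or (PP.ne (NPC.Poly.fst (NPC.Poly.snd (NPC.Poly.fst NPC.Poly.id)))
    (NPC.Poly.fst (NPC.Poly.snd NPC.Poly.id)))
    (PP.eq (NPC.Poly.snd (NPC.Poly.snd (NPC.Poly.fst NPC.Poly.id)))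
    (NPC.Poly.snd (NPC.Poly.snd NPC.Poly.id)))

/-- All values of the linear form with coefficients `cs` on the elements of `l`. -/
def values (l : List ℤ) : List ℤ → List ℤ
  | [] => [0]
  | c :: cs => (values l cs).flatMap fun s => l.map fun x => c * x + s

theorem values_poly {α : Type} [TEnc α] {l : α → List ℤ} (hl : NPC.Poly l) (cs : List ℤ) :
    NPC.Poly (fun x => values (l x) cs) := by
  induction cs with
  | nil => exact NPC.Poly.const _
  | cons c cs ih =>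
    refine NPC.Poly.flatMap (F := fun x s => (l x).map fun y => c * y + s) ih ?_
    refine NPC.Poly.map (l := fun z : α × ℤ => l z.1) (F := fun z y => c * y + z.2)
      (hl.comp (NPC.Poly.fst NPC.Poly.id)) ?_
    exact NPC.Poly.iadd (NPC.Poly.imul (NPC.Poly.const _) (NPC.Poly.snd NPC.Poly.id))
      (NPC.Poly.snd (NPC.Poly.fst NPC.Poly.id))

theorem mem_values {l : List ℤ} : ∀ (k : ℕ) (a : Fin k → ℤ) (z : ℤ),
    z ∈ values l (List.ofFn a) ↔ ∃ x : Fin k → ℤ, (∀ i, x i ∈ l) ∧ ∑ i, a i * x i = z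
  | 0, a, z => by
    rw [List.ofFn_zero, values, List.mem_singleton]
    constructor
    · rintro rfl
      exact ⟨fun i => i.elim0, fun i => i.elim0, by simp⟩
    · rintro ⟨x, -, h⟩
      rw [← h]; simp
  | k + 1, a, z => by
    rw [List.ofFn_succ, values, List.mem_flatMap]
    constructor
    · rintro ⟨s, hs, hz⟩
      obtain ⟨y, hy, rfl⟩ := List.mem_map.1 hz
      obtain ⟨x, hx, rfl⟩ := (mem_values k (fun i => a i.succ) s).1 hs
      refine ⟨Fin.cons y x, fun i => ?_, ?_⟩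
      · refine Fin.cases ?_ (fun j => ?_) i
        · simpa using hy
        · simpa using hx j
      · rw [Fin.sum_univ_succ]
        simp
    · rintro ⟨x, hx, rfl⟩
      refine ⟨∑ i : Fin k, a i.succ * x i.succ, (mem_values k (fun i => a i.succ) _).2
        ⟨fun i => x i.succ, fun i => hx _, rfl⟩, ?_⟩
      refine List.mem_map.2 ⟨x 0, hx 0, ?_⟩
      rw [Fin.sum_univ_succ]

theorem lfree_toFinset {k : ℕ} {a : Fin k → ℤ} {l : List ℤ} :
    LFree a l.toFinset ↔ 0 ∉ values l (List.ofFn a) := by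
  rw [mem_values]
  unfold LFree
  simp only [List.mem_toFinset]
  push Not
  exact Iff.rfl

theorem sz_filter_le {α : Type} [TEnc α] (l : List α) (f : α → Bool) : sz (l.filter f) ≤ sz l := by
  induction l with
  | nil => simp
  | cons x l ih =>
    rw [List.filter_cons]
    split_ifs
    · simp only [sz_list_cons]; omega
    · simp only [sz_list_cons]; omega

theorem inNP_all {k : ℕ} (a : Fin k → ℤ) (p q : ℕ) (hq : 0 < q) :
    InNPP (FreeSubset a ((p : ℚ) / q)) := by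
  have hPP : PP (fun x : List ℤ × List ℤ => (x.1.Nodup ∧ ¬ (0 : ℤ) ∈ x.1) ∧ (x.2.Nodup ∧
      (∀ y ∈ x.2, y ∈ x.1) ∧ ¬ (0 : ℤ) ∈ values x.2 (List.ofFn a) ∧
      p * x.1.length ≤ q * x.2.length)) := by
    have h1 : NPC.Poly (fun x : List ℤ × List ℤ => x.1) := NPC.Poly.fst NPC.Poly.id
    have h2 : NPC.Poly (fun x : List ℤ × List ℤ => x.2) := NPC.Poly.snd NPC.Poly.id
    refine PP.and (PP.and (pp_nodup h1) (PP.not (PP.mem (NPC.Poly.const _) h1)))
      (PP.and (pp_nodup h2) (PP.and ?_ (PP.and (PP.not (PP.mem (NPC.Poly.const _)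
        (values_poly h2 _))) (PP.le (NPC.Poly.mul (NPC.Poly.const _) (NPC.Poly.length h1))
        (NPC.Poly.mul (NPC.Poly.const _) (NPC.Poly.length h2))))))
    exact PP.ball (r := fun (x : List ℤ × List ℤ) y => y ∈ x.1) h2
      (PP.mem (NPC.Poly.snd NPC.Poly.id) (h1.comp (NPC.Poly.fst NPC.Poly.id)))
  obtain ⟨R, hR, hR'⟩ := hPP
  have key : ∀ (A : List ℤ) (c : ℕ), ((p : ℚ) / q) * A.length ≤ c ↔ p * A.length ≤ q * c := by
    intro A c
    have hq' : (0 : ℚ) < q := by exact_mod_cast hq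
    rw [div_mul_eq_mul_div, div_le_iff₀ hq', mul_comm (c : ℚ)]
    norm_cast
  refine inNPP_of (β := List ℤ) hR Polynomial.X fun A => ?_
  simp only [hR', Polynomial.eval_X]
  constructor
  · rintro ⟨hA, S, hS, hf, hc⟩
    classical
    have hS' : (A.filter fun x => decide (x ∈ S)).toFinset = S := by
      ext z
      simp only [List.mem_toFinset, List.mem_filter, decide_eq_true_eq]
      constructor
      · rintro ⟨-, h⟩; exact h
      · intro h; exact ⟨by simpa using hS h, h⟩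
    refine ⟨A.filter fun x => decide (x ∈ S), sz_filter_le _ _, hA, hA.1.filter _,
      fun y hy => (List.mem_filter.1 hy).1, ?_, ?_⟩
    · rw [← lfree_toFinset, hS']
      exact hf
    · rw [← List.toFinset_card_of_nodup (hA.1.filter _), hS']
      exact (key A _).1 hc
  · rintro ⟨w, -, hA, hw, hsub, hf, hc⟩
    refine ⟨hA, w.toFinset, ?_, lfree_toFinset.2 hf, ?_⟩
    · intro z hz
      rw [List.mem_toFinset] at hz ⊢
      exact hsub z hz
    · rw [key, List.toFinset_card_of_nodup hw]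
      exact hc

end Pool.Agent.H76.SF
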