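import Pool.Agent.H76.SF.Basic
import Pool.Agent.H76.SF.Count

/-!
# Coding a graph by polynomials
-/

set_option autoImplicit false

namespace Pool.Agent.H76.SF

open Finset Polynomial

/-- Names of the elements: the vertices, the generic private elements of the edges, the last
elements of the edges. -/
inductive Idx : Type
  | v (i : ℕ) : Idx
  | g (e : ℕ × ℕ) (t : ℕ) : Idx
  | l (e : ℕ × ℕ) : Idx
  deriving DecidableEq

variable {r : ℕ}

/-- the coefficients, as a function on the natural numbers -/
def cf (a : Fin (r + 3) → ℤ) (t : ℕ) : ℤ := if h : t < r + 3 then a ⟨t, h⟩ else 0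

theorem cf_ne_zero {a : Fin (r + 3) → ℤ} (ha : ∀ i, a i ≠ 0) {t : ℕ} (ht : t < r + 3) :
    cf a t ≠ 0 := by
  unfold cf
  rw [dif_pos ht]
  exact ha _

/-- the position of a private generic element -/
def pos (n r : ℕ) (e : ℕ × ℕ) (t : ℕ) : ℕ := n + (e.1 * n + e.2) * r + t

theorem pos_inj {n r : ℕ} {e f : ℕ × ℕ} {s t : ℕ} (he2 : e.2 < n) (hf2 : f.2 < n)
    (hs : s < r) (ht : t < r) (h : pos n r e s = pos n r f t) : e = f ∧ s = t := by
  unfold pos at h
  have h1 : (e.1 * n + e.2) * r + s = (f.1 * n + f.2) * r + t := by omega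
  have hr : 0 < r := by omega
  have h2 : s = t := by
    have := congrArg (fun m => m % r) h1
    simp only [Nat.mul_add_mod_self_right, Nat.mod_eq_of_lt hs, Nat.mod_eq_of_lt ht] at this
    exact this
  subst h2
  have h3 : e.1 * n + e.2 = f.1 * n + f.2 := Nat.eq_of_mul_eq_mul_right hr (by omega)
  have h4 : e.2 = f.2 := by
    have := congrArg (fun m => m % n) h3
    simp only [Nat.mul_add_mod_self_right, Nat.mod_eq_of_lt he2, Nat.mod_eq_of_lt hf2] at this
    exact this
  have h5 : e.1 = f.1 := Nat.eq_of_mul_eq_mul_right (by omega : 0 < n) (by omega)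
  exact ⟨Prod.ext h5 h4, rfl⟩

/-- The element with a given name. -/
noncomputable def el (n : ℕ) (a : Fin (r + 3) → ℤ) : Idx → ℤ[X]
  | Idx.v i => monomial i (cf a (r + 2))
  | Idx.g e t => monomial (pos n r e t) (cf a (r + 2))
  | Idx.l e => -(monomial e.1 (cf a 0) + monomial e.2 (cf a 1) +
      ∑ t ∈ Finset.range r, monomial (pos n r e t) (cf a (t + 2)))

/-- The private elements of an edge. -/
def priv (r : ℕ) (e : ℕ × ℕ) : Finset Idx := insert (Idx.l e) ((Finset.range r).image (Idx.g e))

/-- The names used for a graph with vertices `0, …, n - 1`. -/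
def names (n r : ℕ) (E : Finset (ℕ × ℕ)) : Finset Idx :=
  (Finset.range n).image Idx.v ∪ E.biUnion (priv r)

/-- A block: the two ends of an edge and its private elements. -/
def block (r : ℕ) (e : ℕ × ℕ) : Finset Idx := insert (Idx.v e.1) (insert (Idx.v e.2) (priv r e))

/-- The edges are pairs `(i, j)` with `i < j < n`. -/
def IsEdges (n : ℕ) (E : Finset (ℕ × ℕ)) : Prop := ∀ e ∈ E, e.1 < e.2 ∧ e.2 < n

theorem mem_priv {e : ℕ × ℕ} {y : Idx} :
    y ∈ priv r e ↔ y = Idx.l e ∨ ∃ t < r, y = Idx.g e t := by
  simp [priv, eq_comm]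

theorem mem_names {n : ℕ} {E : Finset (ℕ × ℕ)} {y : Idx} :
    y ∈ names n r E ↔ (∃ i < n, y = Idx.v i) ∨ ∃ e ∈ E, y = Idx.l e ∨ ∃ t < r, y = Idx.g e t := by
  simp only [names, Finset.mem_union, Finset.mem_image, Finset.mem_range, Finset.mem_biUnion,
    mem_priv, eq_comm]

section

variable {n : ℕ} {E : Finset (ℕ × ℕ)} (hE : IsEdges n E) {a : Fin (r + 3) → ℤ}

include hE

theorem coeff_vertex {y : Idx} (hy : y ∈ names n r E) {v : ℕ} (hv : v < n) :
    (el n a y).coeff v = (if y = Idx.v v then cf a (r + 2) else 0) -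
      (cf a 0 * ∑ e ∈ E, (if e.1 = v then (if y = Idx.l e then 1 else 0) else 0) +
       cf a 1 * ∑ e ∈ E, (if e.2 = v then (if y = Idx.l e then 1 else 0) else 0)) := by
  rcases mem_names.1 hy with ⟨i, hi, rfl⟩ | ⟨e, he, rfl | ⟨t, ht, rfl⟩⟩
  · have h1 : ∀ f : ℕ × ℕ, ¬ (Idx.v i = Idx.l f) := fun f h => by cases h
    simp only [el, coeff_monomial, h1, if_false, ite_self, Finset.sum_const_zero, mul_zero,
      add_zero, sub_zero, Idx.v.injEq]
  · have h1 : ¬ (Idx.l e = Idx.v v) := fun h => by cases h
    have h2 : ∑ f ∈ E, (if f.1 = v then (if Idx.l e = Idx.l f then (1 : ℤ) else 0) else 0) =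
        if e.1 = v then 1 else 0 := by
      rw [Finset.sum_eq_single e]
      · simp
      · intro f _ hf
        rw [if_neg (show ¬ (Idx.l e = Idx.l f) by rintro h; cases h; exact hf rfl)]
        simp
      · intro h; exact absurd he h
    have h3 : ∑ f ∈ E, (if f.2 = v then (if Idx.l e = Idx.l f then (1 : ℤ) else 0) else 0) =
        if e.2 = v then 1 else 0 := by
      rw [Finset.sum_eq_single e]
      · simp
      · intro f _ hf
        rw [if_neg (show ¬ (Idx.l e = Idx.l f) by rintro h; cases h; exact hf rfl)]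
        simp
      · intro h; exact absurd he h
    rw [if_neg h1, h2, h3]
    simp only [el, coeff_neg, coeff_add, coeff_monomial, finsetSum_coeff]
    have h4 : ∑ t ∈ Finset.range r, (if pos n r e t = v then cf a (t + 2) else 0) = 0 := by
      refine Finset.sum_eq_zero fun t _ => if_neg ?_
      unfold pos
      omega
    rw [h4]
    split_ifs <;> simp
  · have h1 : ∀ f : ℕ × ℕ, ¬ (Idx.g e t = Idx.l f) := fun f h => by cases h
    have h2 : ¬ (Idx.g e t = Idx.v v) := fun h => by cases h
    have h3 : ¬ (pos n r e t = v) := by unfold pos; omega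
    simp only [el, coeff_monomial, h1, h2, h3, if_false, ite_self, Finset.sum_const_zero,
      mul_zero, add_zero, sub_zero]

theorem coeff_pos {y : Idx} (hy : y ∈ names n r E) {f : ℕ × ℕ} (hf : f ∈ E) {t : ℕ} (ht : t < r) :
    (el n a y).coeff (pos n r f t) = (if y = Idx.g f t then cf a (r + 2) else 0) -
      (if y = Idx.l f then cf a (t + 2) else 0) := by
  have hf' := hE f hf
  rcases mem_names.1 hy with ⟨i, hi, rfl⟩ | ⟨e, he, rfl | ⟨s, hs, rfl⟩⟩
  · have h1 : ¬ (Idx.v i = Idx.l f) := fun h => by cases h
    have h2 : ¬ (Idx.v i = Idx.g f t) := fun h => by cases h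
    have h3 : ¬ (i = pos n r f t) := by unfold pos; omega
    simp only [el, coeff_monomial, h1, h2, h3, if_false, sub_zero]
  · have he' := hE e he
    have h2 : ¬ (Idx.l e = Idx.g f t) := fun h => by cases h
    have h3 : ¬ (e.1 = pos n r f t) := by unfold pos; omega
    have h4 : ¬ (e.2 = pos n r f t) := by unfold pos; omega
    simp only [el, coeff_neg, coeff_add, coeff_monomial, finsetSum_coeff, h2, h3, h4, if_false,
      zero_add, zero_sub]
    congr 1
    by_cases hef : e = f
    · subst hef
      rw [if_pos rfl, Finset.sum_eq_single t]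
      · rw [if_pos rfl]
      · intro s hs hst
        refine if_neg fun h => hst ?_
        exact (pos_inj he'.2 he'.2 (Finset.mem_range.1 hs) ht h).2
      · intro h; exact absurd (Finset.mem_range.2 ht) h
    · rw [if_neg (show ¬ (Idx.l e = Idx.l f) by rintro h; cases h; exact hef rfl)]
      refine Finset.sum_eq_zero fun s hs => if_neg fun h => hef ?_
      exact (pos_inj he'.2 hf'.2 (Finset.mem_range.1 hs) ht h).1
  · have he' := hE e he
    have h1 : ¬ (Idx.g e s = Idx.l f) := fun h => by cases h
    simp only [el, coeff_monomial, h1, if_false, sub_zero]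
    by_cases h : Idx.g e s = Idx.g f t
    · cases h
      rw [if_pos rfl, if_pos rfl]
    · rw [if_neg h, if_neg]
      intro h'
      obtain ⟨h1, h2⟩ := pos_inj he'.2 hf'.2 hs ht h'
      exact h (by rw [h1, h2])

/-- The relations between the elements of the code of a graph. -/
theorem relation (ha : ∀ i, a i ≠ 0) (ha01 : cf a 0 + cf a 1 ≠ 0) (x : Fin (r + 3) → Idx)
    (P : Finset (Fin (r + 3))) (hx : ∀ i ∈ P, x i ∈ names n r E)
    (h : ∑ i ∈ P, a i • el n a (x i) = 0) :
    ∑ i ∈ P, a i = 0 ∨ (P = Finset.univ ∧ ∃ e ∈ E, block r e ⊆ Finset.univ.image x) := by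
  classical
  set W : Idx → ℤ := fun y => ∑ i ∈ P, (if x i = y then a i else 0) with hW
  have hcoef : ∀ m, ∑ i ∈ P, a i * (el n a (x i)).coeff m = 0 := by
    intro m
    have := congrArg (fun p => coeff p m) h
    simpa only [finsetSum_coeff, coeff_smul, smul_eq_mul, coeff_zero] using this
  -- the equations
  have hv : ∀ v < n, cf a (r + 2) * W (Idx.v v) =
      vEq E (fun e => W (Idx.l e)) (cf a 0) (cf a 1) v := by
    intro v hv
    have h1 := hcoef v
    have h2 : ∀ i ∈ P, a i * (el n a (x i)).coeff v =
        cf a (r + 2) * (if x i = Idx.v v then a i else 0) -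
        (cf a 0 * ∑ e ∈ E, (if e.1 = v then (if x i = Idx.l e then a i else 0) else 0) +
         cf a 1 * ∑ e ∈ E, (if e.2 = v then (if x i = Idx.l e then a i else 0) else 0)) := by
      intro i hi
      rw [coeff_vertex hE (hx i hi) hv]
      have e1 : ∀ (p : ℕ × ℕ → Prop) [DecidablePred p],
          a i * ∑ e ∈ E, (if p e then (if x i = Idx.l e then (1 : ℤ) else 0) else 0) =
          ∑ e ∈ E, (if p e then (if x i = Idx.l e then a i else 0) else 0) := by
        intro p _
        rw [Finset.mul_sum]
        refine Finset.sum_congr rfl fun e _ => ?_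
        split_ifs <;> simp
      rw [← e1, ← e1]
      split_ifs <;> ring
    rw [Finset.sum_congr rfl h2, Finset.sum_sub_distrib, Finset.sum_add_distrib,
      ← Finset.mul_sum, ← Finset.mul_sum, ← Finset.mul_sum, sub_eq_zero] at h1
    rw [hW, h1]
    unfold vEq
    have e2 : ∀ (p : ℕ × ℕ → Prop) [DecidablePred p],
        ∑ i ∈ P, ∑ e ∈ E, (if p e then (if x i = Idx.l e then a i else 0) else 0) =
        ∑ e ∈ E, (if p e then ∑ i ∈ P, (if x i = Idx.l e then a i else 0) else 0) := by
      intro p _
      rw [Finset.sum_comm]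
      refine Finset.sum_congr rfl fun e _ => ?_
      split_ifs
      · rfl
      · exact Finset.sum_const_zero
    rw [e2, e2]
  have hg : ∀ e ∈ E, ∀ t < r, cf a (r + 2) * W (Idx.g e t) = cf a (t + 2) * W (Idx.l e) := by
    intro e he t ht
    have h1 := hcoef (pos n r e t)
    have h2 : ∀ i ∈ P, a i * (el n a (x i)).coeff (pos n r e t) =
        cf a (r + 2) * (if x i = Idx.g e t then a i else 0) -
        cf a (t + 2) * (if x i = Idx.l e then a i else 0) := by
      intro i hi
      rw [coeff_pos hE (hx i hi) he ht]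
      split_ifs <;> ring
    rw [Finset.sum_congr rfl h2, Finset.sum_sub_distrib, ← Finset.mul_sum, ← Finset.mul_sum,
      sub_eq_zero] at h1
    exact h1
  have hL : cf a (r + 2) ≠ 0 := cf_ne_zero ha (by omega)
  set F := E.filter fun e => W (Idx.l e) ≠ 0 with hF
  set U := (Finset.range n).filter fun v => W (Idx.v v) ≠ 0 with hUd
  have hFE : ∀ e ∈ F, e ∈ E := fun e he => (Finset.mem_filter.1 he).1
  have hvF : ∀ v, vEq F (fun e => W (Idx.l e)) (cf a 0) (cf a 1) v =
      vEq E (fun e => W (Idx.l e)) (cf a 0) (cf a 1) v := by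
    intro v
    unfold vEq
    have e2 : ∀ (p : ℕ × ℕ → Prop) [DecidablePred p],
        ∑ e ∈ F, (if p e then W (Idx.l e) else 0) = ∑ e ∈ E, (if p e then W (Idx.l e) else 0) := by
      intro p _
      refine Finset.sum_subset (Finset.filter_subset _ _) fun e he he' => ?_
      have : W (Idx.l e) = 0 := by
        by_contra hc
        exact he' (Finset.mem_filter.2 ⟨he, hc⟩)
      rw [this, ite_self]
    rw [e2, e2]
  have hU : ∀ v ∉ U, vEq F (fun e => W (Idx.l e)) (cf a 0) (cf a 1) v = 0 := by
    intro v hvU
    rw [hvF]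
    by_cases hvn : v < n
    · rw [← hv v hvn]
      have : W (Idx.v v) = 0 := by
        by_contra hc
        exact hvU (Finset.mem_filter.2 ⟨Finset.mem_range.2 hvn, hc⟩)
      rw [this, mul_zero]
    · unfold vEq
      rw [Finset.sum_eq_zero, Finset.sum_eq_zero]
      · simp
      · intro e he
        have := hE e he
        exact if_neg (by omega)
      · intro e he
        have := hE e he
        exact if_neg (by omega)
  -- the elements which occur
  have hocc : ∀ y, W y ≠ 0 → y ∈ P.image x := by
    intro y hy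
    by_contra hc
    apply hy
    refine Finset.sum_eq_zero fun i hi => if_neg fun h => hc ?_
    rw [← h]
    exact Finset.mem_image_of_mem _ hi
  have hWg : ∀ e ∈ F, ∀ t < r, W (Idx.g e t) ≠ 0 := by
    intro e he t ht h0
    have h1 := hg e (hFE e he) t ht
    rw [h0, mul_zero] at h1
    have h2 := (Finset.mem_filter.1 he).2
    exact mul_ne_zero (cf_ne_zero ha (by omega : t + 2 < r + 3)) h2 h1.symm
  have hprivF : ∀ e ∈ F, priv r e ⊆ P.image x := by
    intro e he y hy
    rcases mem_priv.1 hy with rfl | ⟨t, ht, rfl⟩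
    · exact hocc _ (Finset.mem_filter.1 he).2
    · exact hocc _ (hWg e he t ht)
  have hpc : ∀ e, (priv r e).card = r + 1 := by
    intro e
    unfold priv
    rw [Finset.card_insert_of_notMem, Finset.card_image_of_injective, Finset.card_range]
    · intro s t h; cases h; rfl
    · simp
  have hcount : U.card + F.card * (r + 1) ≤ P.card := by
    have h1 : (U.image Idx.v) ∪ F.biUnion (priv r) ⊆ P.image x := by
      refine Finset.union_subset ?_ ?_
      · intro y hy
        obtain ⟨v, hv, rfl⟩ := Finset.mem_image.1 hy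
        exact hocc _ (Finset.mem_filter.1 hv).2
      · intro y hy
        obtain ⟨e, he, hy⟩ := Finset.mem_biUnion.1 hy
        exact hprivF e he hy
    have h2 := (Finset.card_le_card h1).trans Finset.card_image_le
    rw [Finset.card_union_of_disjoint, Finset.card_image_of_injective, Finset.card_biUnion] at h2
    · simpa [hpc] using h2
    · intro e _ f _ hef
      rw [Function.onFun, Finset.disjoint_left]
      intro y hy hy'
      rcases mem_priv.1 hy with rfl | ⟨t, ht, rfl⟩ <;> rcases mem_priv.1 hy' with h | ⟨s, hs, h⟩ <;>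
        cases h <;> exact hef rfl
    · intro s t h; cases h; rfl
    · rw [Finset.disjoint_left]
      intro y hy hy'
      obtain ⟨v, hv, rfl⟩ := Finset.mem_image.1 hy
      obtain ⟨e, he, hy'⟩ := Finset.mem_biUnion.1 hy'
      rcases mem_priv.1 hy' with h | ⟨t, ht, h⟩ <;> cases h
  have hPle : P.card ≤ r + 3 := (Finset.card_le_univ P).trans (by simp)
  have hFcard : F.card = 0 ∨ F.card = 1 ∨ 2 ≤ F.card := by omega
  rcases hFcard with h0 | h1 | h2
  · left
    rw [Finset.card_eq_zero] at h0
    have hl0 : ∀ e ∈ E, W (Idx.l e) = 0 := by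
      intro e he
      by_contra hc
      have : e ∈ F := Finset.mem_filter.2 ⟨he, hc⟩
      rw [h0] at this
      simp at this
    have hall : ∀ y ∈ names n r E, W y = 0 := by
      intro y hy
      rcases mem_names.1 hy with ⟨i, hi, rfl⟩ | ⟨e, he, rfl | ⟨t, ht, rfl⟩⟩
      · have h3 := hv i hi
        rw [← hvF, h0] at h3
        unfold vEq at h3
        simp only [Finset.sum_empty, mul_zero, add_zero] at h3
        exact (mul_eq_zero.1 h3).resolve_left hL
      · exact hl0 e he
      · have h3 := hg e he t ht
        rw [hl0 e he, mul_zero] at h3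
        exact (mul_eq_zero.1 h3).resolve_left hL
    have h4 : ∑ y ∈ names n r E, W y = ∑ i ∈ P, a i := by
      rw [hW, Finset.sum_comm]
      refine Finset.sum_congr rfl fun i hi => ?_
      rw [Finset.sum_ite_eq, if_pos (hx i hi)]
    rw [← h4]
    exact Finset.sum_eq_zero hall
  · right
    obtain ⟨e, he⟩ := Finset.card_eq_one.1 h1
    have heF : e ∈ F := by rw [he]; exact Finset.mem_singleton_self e
    have hee := hE e (hFE e heF)
    have hWe : W (Idx.l e) ≠ 0 := (Finset.mem_filter.1 heF).2
    have hU1 : e.1 ∈ U := by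
      by_contra hc
      have h3 := hU _ hc
      rw [he] at h3
      unfold vEq at h3
      rw [Finset.sum_singleton, Finset.sum_singleton, if_pos rfl, if_neg (by omega), mul_zero,
        add_zero] at h3
      exact mul_ne_zero (cf_ne_zero ha (by omega : 0 < r + 3)) hWe h3
    have hU2 : e.2 ∈ U := by
      by_contra hc
      have h3 := hU _ hc
      rw [he] at h3
      unfold vEq at h3
      rw [Finset.sum_singleton, Finset.sum_singleton, if_pos rfl, if_neg (by omega), mul_zero,
        zero_add] at h3
      exact mul_ne_zero (cf_ne_zero ha (by omega : 1 < r + 3)) hWe h3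
    have hU3 : 2 ≤ U.card := by
      have h4 : ({e.1, e.2} : Finset ℕ) ⊆ U := by
        intro w hw
        rw [Finset.mem_insert, Finset.mem_singleton] at hw
        rcases hw with rfl | rfl
        · exact hU1
        · exact hU2
      have h5 := Finset.card_le_card h4
      rwa [Finset.card_pair (by omega)] at h5
    have hPu : P = Finset.univ := by
      rw [← Finset.card_eq_iff_eq_univ, Fintype.card_fin]
      rw [h1] at hcount
      omega
    refine ⟨hPu, e, hFE e heF, ?_⟩
    rw [← hPu]
    intro y hy
    unfold block at hy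
    rw [Finset.mem_insert, Finset.mem_insert] at hy
    rcases hy with rfl | rfl | hy
    · exact hocc _ (Finset.mem_filter.1 hU1).2
    · exact hocc _ (Finset.mem_filter.1 hU2).2
    · exact hprivF e heF hy
  · exfalso
    have h3 := graph_count (F := F) (fun e he => (hE e (hFE e he)).1) h2
      (A := fun e => W (Idx.l e)) (fun e he => (Finset.mem_filter.1 he).2)
      (cf_ne_zero ha (by omega)) (cf_ne_zero ha (by omega)) ha01 hU
    have h4 : 2 * r ≤ F.card * r := Nat.mul_le_mul_right _ h2
    rw [Nat.mul_add, Nat.mul_one] at hcount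
    omega

end

end Pool.Agent.H76.SF
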