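import Pool.Agent.H76.SF.Gadget

/-!
# The largest solution-free subset of the code of a graph
-/

set_option autoImplicit false

namespace Pool.Agent.H76.SF

open Finset Polynomial

variable {r n : ℕ} {E : Finset (ℕ × ℕ)} {a : Fin (r + 3) → ℤ}

theorem coeff_lst_vertex (hE : IsEdges n E) {e : ℕ × ℕ} (he : e ∈ E) {v : ℕ} (hv : v < n) :
    (el n a (Idx.l e)).coeff v = -((if e.1 = v then cf a 0 else 0) +
      (if e.2 = v then cf a 1 else 0)) := by
  have hmem : Idx.l e ∈ names n r E := mem_names.2 (Or.inr ⟨e, he, Or.inl rfl⟩)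
  have hne : ¬ (Idx.l e = Idx.v v) := fun h => by cases h
  rw [coeff_vertex hE hmem hv, if_neg hne, zero_sub]
  have h2 : ∑ f ∈ E, (if f.1 = v then (if Idx.l e = Idx.l f then (1 : ℤ) else 0) else 0) =
      if e.1 = v then 1 else 0 := by
    rw [Finset.sum_eq_single e]
    · simp
    · intro f _ hf
      rw [if_neg (show ¬ (Idx.l e = Idx.l f) by rintro h; cases h; exact hf rfl)]
      simp
    · intro h; exact absurd he h
  have h3 : ∑ f ∈ E, (if f.2 = v then (if Idx.l e = Idx.l f then (1 : ℤ) else 0) else 0) =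
      if e.2 = v then 1 else 0 := by
    rw [Finset.sum_eq_single e]
    · simp
    · intro f _ hf
      rw [if_neg (show ¬ (Idx.l e = Idx.l f) by rintro h; cases h; exact hf rfl)]
      simp
    · intro h; exact absurd he h
  rw [h2, h3]
  split_ifs <;> simp

theorem el_injOn (hE : IsEdges n E) (ha : ∀ i, a i ≠ 0) :
    Set.InjOn (el n a) (names n r E : Set Idx) := by
  have hL : cf a (r + 2) ≠ 0 := cf_ne_zero ha (by omega)
  have h0 : cf a 0 ≠ 0 := cf_ne_zero ha (by omega)
  have h1 : cf a 1 ≠ 0 := cf_ne_zero ha (by omega)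
  -- the last elements differ from the monomials
  have key : ∀ e ∈ E, ∀ m (c : ℤ), el n a (Idx.l e) ≠ monomial m c := by
    intro e he m c h
    have hee := hE e he
    have e1 := coeff_lst_vertex (a := a) hE he (v := e.1) (by omega)
    have e2 := coeff_lst_vertex (a := a) hE he (v := e.2) (by omega)
    rw [h, coeff_monomial, if_pos (rfl : e.1 = e.1), if_neg (show ¬ e.2 = e.1 by omega)] at e1
    rw [h, coeff_monomial, if_neg (show ¬ e.1 = e.2 by omega), if_pos (rfl : e.2 = e.2)] at e2
    by_cases hm : m = e.1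
    · rw [if_neg (show ¬ m = e.2 by omega)] at e2
      omega
    · rw [if_neg hm] at e1
      omega
  intro y hy y' hy' h
  rcases mem_names.1 hy with ⟨i, hi, rfl⟩ | ⟨e, he, rfl | ⟨t, ht, rfl⟩⟩ <;>
    rcases mem_names.1 hy' with ⟨j, hj, rfl⟩ | ⟨f, hf, rfl | ⟨s, hs, rfl⟩⟩
  · simp only [el] at h
    rcases (monomial_eq_monomial_iff).1 h with ⟨h2, -⟩ | ⟨h2, -⟩
    · rw [h2]
    · exact absurd h2 hL
  · exact absurd h.symm (key f hf _ _)
  · simp only [el] at h
    rcases (monomial_eq_monomial_iff).1 h with ⟨h2, -⟩ | ⟨h2, -⟩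
    · unfold pos at h2; omega
    · exact absurd h2 hL
  · exact absurd h (key e he _ _)
  · have hee := hE e he
    have hff := hE f hf
    have e1 := coeff_lst_vertex (a := a) hE he (v := e.1) (by omega)
    have e2 := coeff_lst_vertex (a := a) hE he (v := e.2) (by omega)
    rw [h, coeff_lst_vertex hE hf (by omega), if_pos rfl, if_neg (show ¬ e.2 = e.1 by omega)] at e1
    rw [h, coeff_lst_vertex hE hf (by omega), if_neg (show ¬ e.1 = e.2 by omega), if_pos rfl] at e2
    have h3 : f.1 = e.1 ∨ f.2 = e.1 := by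
      by_contra hc
      push Not at hc
      rw [if_neg hc.1, if_neg hc.2] at e1
      omega
    have h4 : f.1 = e.2 ∨ f.2 = e.2 := by
      by_contra hc
      push Not at hc
      rw [if_neg hc.1, if_neg hc.2] at e2
      omega
    have h5 : e = f := Prod.ext (by omega) (by omega)
    rw [h5]
  · exact absurd h (key e he _ _)
  · simp only [el] at h
    rcases (monomial_eq_monomial_iff).1 h with ⟨h2, -⟩ | ⟨h2, -⟩
    · unfold pos at h2; omega
    · exact absurd h2 hL
  · exact absurd h.symm (key f hf _ _)
  · simp only [el] at h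
    rcases (monomial_eq_monomial_iff).1 h with ⟨h2, -⟩ | ⟨h2, -⟩
    · obtain ⟨h3, h4⟩ := pos_inj (hE e he).2 (hE f hf).2 ht hs h2
      rw [h3, h4]
    · exact absurd h2 hL

/-- The code of a graph, as a set of polynomials. -/
noncomputable def code (n : ℕ) (a : Fin (r + 3) → ℤ) (E : Finset (ℕ × ℕ)) : Finset ℤ[X] :=
  (names n r E).image (el n a)

theorem code_tight (hE : IsEdges n E) (ha : ∀ i, a i ≠ 0) (ha01 : cf a 0 + cf a 1 ≠ 0) :
    Tight a (code n a E) := by
  classical
  intro P x hx hP h0
  have h1 : ∀ i, ∃ y, i ∈ P → y ∈ names n r E ∧ el n a y = x i := by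
    intro i
    by_cases hi : i ∈ P
    · obtain ⟨y, hy, h⟩ := Finset.mem_image.1 (hx i hi)
      exact ⟨y, fun _ => ⟨hy, h⟩⟩
    · exact ⟨Idx.v 0, fun h => absurd h hi⟩
  choose y hy using h1
  have h2 : ∑ i ∈ P, a i • el n a (y i) = 0 := by
    rw [← h0]
    exact Finset.sum_congr rfl fun i hi => by rw [(hy i hi).2]
  rcases relation hE ha ha01 y P (fun i hi => (hy i hi).1) h2 with h | ⟨h, -⟩
  · exact h
  · exact absurd h hP

theorem cf_coe (i : Fin (r + 3)) : cf a i = a i := by
  unfold cf
  rw [dif_pos i.2]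

/-- The solution given by an edge. -/
theorem block_solution (n : ℕ) (e : ℕ × ℕ) : ∃ x : Fin (r + 3) → Idx,
    (∀ i, x i ∈ block r e) ∧ ∑ i, a i • el n a (x i) = 0 := by
  let y : ℕ → Idx := fun t =>
    if t = 0 then Idx.v e.1 else if t = 1 then Idx.v e.2 else
      if t = r + 2 then Idx.l e else Idx.g e (t - 2)
  refine ⟨fun i => y i, fun i => ?_, ?_⟩
  · have hi := i.2
    simp only [y]
    unfold block
    rw [Finset.mem_insert, Finset.mem_insert, mem_priv]
    split_ifs with h1 h2 h3
    · left; rfl
    · right; left; rfl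
    · right; right; left; rfl
    · right; right; right
      exact ⟨i - 2, by omega, rfl⟩
  · have h1 : ∑ i : Fin (r + 3), a i • el n a (y i) =
        ∑ i ∈ Finset.range (r + 3), cf a i • el n a (y i) := by
      rw [← Fin.sum_univ_eq_sum_range (fun i => cf a i • el n a (y i))]
      exact Finset.sum_congr rfl fun i _ => by rw [cf_coe]
    rw [h1, Finset.sum_range_succ, Finset.sum_range_succ', Finset.sum_range_succ']
    have h2 : ∀ t ∈ Finset.range r, cf a (t + 1 + 1) • el n a (y (t + 1 + 1)) =
        cf a (r + 2) • monomial (pos n r e t) (cf a (t + 2)) := by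
      intro t ht
      rw [Finset.mem_range] at ht
      have : y (t + 1 + 1) = Idx.g e t := by
        simp only [y]
        rw [if_neg (by omega), if_neg (by omega), if_neg (by omega)]
        congr 1
      rw [this]
      simp only [el, smul_monomial, smul_eq_mul]
      rw [mul_comm]
    rw [Finset.sum_congr rfl h2, ← Finset.smul_sum]
    have h3 : y (0 + 1) = Idx.v e.2 := by simp [y]
    have h4 : y 0 = Idx.v e.1 := by simp [y]
    have h5 : y (r + 2) = Idx.l e := by simp [y]
    rw [h3, h4, h5]
    simp only [el, smul_monomial, smul_eq_mul, smul_neg, smul_add, zero_add]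
    rw [mul_comm (cf a 1), mul_comm (cf a 0)]
    abel

/-- Solution-free subsets of the code of a graph. -/
theorem free_iff (hE : IsEdges n E) (ha : ∀ i, a i ≠ 0) (ha01 : cf a 0 + cf a 1 ≠ 0)
    (hs : ∑ i, a i ≠ 0) {S : Finset Idx} (hS : S ⊆ names n r E) :
    VFree a (S.image (el n a)) ↔ ∀ e ∈ E, ¬ block r e ⊆ S := by
  classical
  constructor
  · intro h e he hb
    obtain ⟨x, hx, h0⟩ := block_solution (a := a) n e
    exact h (fun i => el n a (x i)) (fun i => Finset.mem_image_of_mem _ (hb (hx i))) h0
  · intro h x hx h0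
    have h1 : ∀ i, ∃ y ∈ S, el n a y = x i := fun i => Finset.mem_image.1 (hx i)
    choose y hy hyx using h1
    have h2 : ∑ i, a i • el n a (y i) = 0 := by
      rw [← h0]
      exact Finset.sum_congr rfl fun i _ => by rw [hyx]
    rcases relation hE ha ha01 y Finset.univ (fun i _ => hS (hy i)) h2 with h3 | ⟨-, e, he, hb⟩
    · exact hs h3
    · apply h e he
      intro z hz
      obtain ⟨i, _, rfl⟩ := Finset.mem_image.1 (hb hz)
      exact hy i

theorem card_priv (e : ℕ × ℕ) : (priv r e).card = r + 1 := by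
  classical
  unfold priv
  rw [Finset.card_insert_of_notMem, Finset.card_image_of_injective, Finset.card_range]
  · intro s t h; cases h; rfl
  · simp

theorem priv_disjoint {e f : ℕ × ℕ} (h : e ≠ f) : Disjoint (priv r e) (priv r f) := by
  rw [Finset.disjoint_left]
  intro y hy hy'
  rcases mem_priv.1 hy with rfl | ⟨t, ht, rfl⟩ <;> rcases mem_priv.1 hy' with h' | ⟨s, hs, h'⟩ <;>
    cases h' <;> exact h rfl

theorem card_names : (names n r E).card = n + E.card * (r + 1) := by
  classical
  unfold names
  rw [Finset.card_union_of_disjoint, Finset.card_image_of_injective, Finset.card_range,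
    Finset.card_biUnion]
  · simp [card_priv]
  · intro e _ f _ hef
    exact priv_disjoint hef
  · intro s t h; cases h; rfl
  · rw [Finset.disjoint_left]
    intro y hy hy'
    obtain ⟨v, hv, rfl⟩ := Finset.mem_image.1 hy
    obtain ⟨e, he, hy'⟩ := Finset.mem_biUnion.1 hy'
    rcases mem_priv.1 hy' with h | ⟨t, ht, h⟩ <;> cases h

theorem card_code (hE : IsEdges n E) (ha : ∀ i, a i ≠ 0) :
    (code n a E).card = n + E.card * (r + 1) := by
  classical
  unfold code
  rw [Finset.card_image_of_injOn (el_injOn hE ha), card_names]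

theorem zero_notMem_code (hE : IsEdges n E) (ha : ∀ i, a i ≠ 0) : 0 ∉ code n a E := by
  intro h
  obtain ⟨y, hy, h⟩ := Finset.mem_image.1 h
  have hL : cf a (r + 2) ≠ 0 := cf_ne_zero ha (by omega)
  rcases mem_names.1 hy with ⟨i, hi, rfl⟩ | ⟨e, he, rfl | ⟨t, ht, rfl⟩⟩
  · simp only [el, monomial_eq_zero_iff] at h
    exact hL h
  · have e1 := coeff_lst_vertex (a := a) hE he (v := e.1) (by have := hE e he; omega)
    have hee := hE e he
    rw [h, coeff_zero, if_pos rfl, if_neg (by omega)] at e1
    have : cf a 0 ≠ 0 := cf_ne_zero ha (by omega)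
    omega
  · simp only [el, monomial_eq_zero_iff] at h
    exact hL h

/-- Independent sets of the graph with vertices `0, …, n - 1` and edges `E`. -/
def IndepIn (n : ℕ) (E : Finset (ℕ × ℕ)) (T : Finset ℕ) : Prop :=
  (∀ v ∈ T, v < n) ∧ ∀ e ∈ E, ¬ (e.1 ∈ T ∧ e.2 ∈ T)

theorem le_vmax_code (hE : IsEdges n E) (ha : ∀ i, a i ≠ 0) (ha01 : cf a 0 + cf a 1 ≠ 0)
    (hs : ∑ i, a i ≠ 0) {T : Finset ℕ} (hT : IndepIn n E T) :
    T.card + E.card * (r + 1) ≤ vmax a (code n a E) := by
  classical
  have hsub : T.image Idx.v ∪ E.biUnion (priv r) ⊆ names n r E := by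
    refine Finset.union_subset_union (Finset.image_subset_image fun v hv => ?_) subset_rfl
    exact Finset.mem_range.2 (hT.1 v hv)
  have h1 := card_le_vmax (a := a) (A := code n a E) (Finset.image_subset_image hsub) (by
    rw [free_iff hE ha ha01 hs hsub]
    intro e he hb
    refine hT.2 e he ⟨?_, ?_⟩
    · have := hb (show Idx.v e.1 ∈ block r e by simp [block])
      rw [Finset.mem_union] at this
      rcases this with h | h
      · obtain ⟨w, hw, h⟩ := Finset.mem_image.1 h
        cases h
        exact hw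
      · obtain ⟨f, _, h⟩ := Finset.mem_biUnion.1 h
        rcases mem_priv.1 h with h | ⟨t, _, h⟩ <;> cases h
    · have := hb (show Idx.v e.2 ∈ block r e by simp [block])
      rw [Finset.mem_union] at this
      rcases this with h | h
      · obtain ⟨w, hw, h⟩ := Finset.mem_image.1 h
        cases h
        exact hw
      · obtain ⟨f, _, h⟩ := Finset.mem_biUnion.1 h
        rcases mem_priv.1 h with h | ⟨t, _, h⟩ <;> cases h)
  rw [Finset.card_image_of_injOn ((el_injOn hE ha).mono (by exact_mod_cast hsub)),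
    Finset.card_union_of_disjoint, Finset.card_image_of_injective, Finset.card_biUnion] at h1
  · simpa [card_priv] using h1
  · intro e _ f _ hef
    exact priv_disjoint hef
  · intro s t h; cases h; rfl
  · rw [Finset.disjoint_left]
    intro y hy hy'
    obtain ⟨v, hv, rfl⟩ := Finset.mem_image.1 hy
    obtain ⟨e, he, hy'⟩ := Finset.mem_biUnion.1 hy'
    rcases mem_priv.1 hy' with h | ⟨t, ht, h⟩ <;> cases h

theorem exists_indep (hE : IsEdges n E) (ha : ∀ i, a i ≠ 0) (ha01 : cf a 0 + cf a 1 ≠ 0)
    (hs : ∑ i, a i ≠ 0) :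
    ∃ T, IndepIn n E T ∧ vmax a (code n a E) ≤ T.card + E.card * (r + 1) := by
  classical
  obtain ⟨A, hA, hf, hc⟩ := exists_vmax a (by omega : 0 < r + 3) (code n a E)
  obtain ⟨S, hS, rfl⟩ := Finset.subset_image_iff.1 hA
  have hS' : S ⊆ names n r E := by exact_mod_cast hS
  rw [free_iff hE ha ha01 hs hS'] at hf
  rw [Finset.card_image_of_injOn ((el_injOn hE ha).mono hS)] at hc
  set V := (Finset.range n).filter fun v => Idx.v v ∈ S with hV
  set ES := E.filter fun e => e.1 ∈ V ∧ e.2 ∈ V with hES
  refine ⟨V \ ES.image Prod.fst, ⟨?_, ?_⟩, ?_⟩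
  · intro v hv
    rw [Finset.mem_sdiff, hV, Finset.mem_filter, Finset.mem_range] at hv
    exact hv.1.1
  · intro e he ⟨h1, h2⟩
    rw [Finset.mem_sdiff] at h1 h2
    exact h1.2 (Finset.mem_image_of_mem _ (Finset.mem_filter.2 ⟨he, h1.1, h2.1⟩))
  · rw [← hc]
    have h1 : S ⊆ V.image Idx.v ∪ E.biUnion fun e => S ∩ priv r e := by
      intro y hy
      rw [Finset.mem_union]
      have := hS' hy
      unfold names at this
      rw [Finset.mem_union] at this
      rcases this with h | h
      · left
        obtain ⟨v, hv, rfl⟩ := Finset.mem_image.1 h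
        exact Finset.mem_image_of_mem _ (Finset.mem_filter.2 ⟨hv, hy⟩)
      · right
        obtain ⟨e, he, h⟩ := Finset.mem_biUnion.1 h
        exact Finset.mem_biUnion.2 ⟨e, he, Finset.mem_inter.2 ⟨hy, h⟩⟩
    have h2 := Finset.card_le_card h1
    have h3 := Finset.card_union_le (V.image Idx.v) (E.biUnion fun e => S ∩ priv r e)
    have h4 : (V.image Idx.v).card ≤ V.card := Finset.card_image_le
    have h5 : (E.biUnion fun e => S ∩ priv r e).card ≤ ∑ e ∈ E, (S ∩ priv r e).card :=
      Finset.card_biUnion_le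
    have h6 : ∑ e ∈ E, (S ∩ priv r e).card + ES.card ≤ E.card * (r + 1) := by
      have h7 : ES.card = ∑ e ∈ E, if e.1 ∈ V ∧ e.2 ∈ V then 1 else 0 := by
        rw [hES, Finset.card_filter]
      rw [h7, ← Finset.sum_add_distrib, ← smul_eq_mul]
      refine Finset.sum_le_card_nsmul _ _ _ fun e he => ?_
      have h8 : (S ∩ priv r e).card ≤ r + 1 := by
        rw [← card_priv (r := r) e]
        exact Finset.card_le_card Finset.inter_subset_right
      split_ifs with hv
      · have h9 : S ∩ priv r e ≠ priv r e := by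
          intro h
          refine hf e he ?_
          intro y hy
          unfold block at hy
          rw [Finset.mem_insert, Finset.mem_insert] at hy
          rcases hy with rfl | rfl | hy
          · exact (Finset.mem_filter.1 hv.1).2
          · exact (Finset.mem_filter.1 hv.2).2
          · rw [← h] at hy
            exact (Finset.mem_inter.1 hy).1
        have h10 := Finset.card_lt_card (Finset.ssubset_iff_subset_ne.2
          ⟨Finset.inter_subset_right, h9⟩)
        rw [card_priv] at h10
        omega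
      · omega
    have h7 : V.card - ES.card ≤ (V \ ES.image Prod.fst).card := by
      have h8 := Finset.le_card_sdiff (ES.image Prod.fst) V
      have h9 : (ES.image Prod.fst).card ≤ ES.card := Finset.card_image_le
      omega
    omega

end Pool.Agent.H76.SF
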