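import Pool.Agent.H76.SF.Assemble
import Pool.Agent.H76.R542.Base

/-!
# The list of integers produced by the reduction
-/

set_option autoImplicit false

namespace Pool.Agent.H76.SF

open Finset Polynomial

/-- The last element of an edge, as an integer. -/
def lstZ {r : ℕ} (a : Fin (r + 3) → ℤ) (M t n : ℕ) (e : ℕ × ℕ) : ℤ :=
  -(cf a 0 * (M : ℤ) ^ (t + e.1) + cf a 1 * (M : ℤ) ^ (t + e.2) +
    ((List.range r).map fun s => cf a (s + 2) * (M : ℤ) ^ (t + pos n r e s)).sum)

/-- The output list. -/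
def outL {r : ℕ} (a : Fin (r + 3) → ℤ) (M n t m : ℕ) (es : List (ℕ × ℕ)) (bs : List ℤ) :
    List ℤ :=
  (List.range t).map (fun j => (M : ℤ) ^ j) ++
  (((List.range n).map (fun i => cf a (r + 2) * (M : ℤ) ^ (t + i)) ++
    es.flatMap (fun e => lstZ a M t n e ::
      (List.range r).map (fun s => cf a (r + 2) * (M : ℤ) ^ (t + pos n r e s)))) ++
  (List.range m).flatMap (fun j => bs.map (fun b => b * (M : ℤ) ^ (t + (npos n r + j)))))

theorem eval_shift (d : ℕ) (M : ℤ) (p : ℤ[X]) : eval M (shift d p) = M ^ d * eval M p := by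
  rw [shift_apply, eval_mul, eval_pow, eval_X]

theorem eval_lst {r : ℕ} (a : Fin (r + 3) → ℤ) (M t n : ℕ) (e : ℕ × ℕ) :
    (M : ℤ) ^ t * eval (M : ℤ) (el n a (Idx.l e)) = lstZ a M t n e := by
  unfold lstZ
  simp only [el, eval_neg, eval_add, eval_monomial, eval_finsetSum]
  have h1 : ((List.range r).map fun s => cf a (s + 2) * (M : ℤ) ^ (t + pos n r e s)).sum =
      ∑ s ∈ Finset.range r, cf a (s + 2) * (M : ℤ) ^ (t + pos n r e s) := by
    rw [Finset.sum_range, ← List.sum_ofFn]
    congr 1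
    rw [List.ofFn_eq_map, ← List.map_coe_finRange_eq_range, List.map_map]
    rfl
  rw [h1, mul_neg, mul_add, mul_add, Finset.mul_sum]
  congr 1
  congr 1
  · rw [pow_add, pow_add]; ring
  · refine Finset.sum_congr rfl fun s _ => ?_
    rw [pow_add]; ring

theorem mem_outL {r : ℕ} {a : Fin (r + 3) → ℤ} {n t m : ℕ} {es : List (ℕ × ℕ)} {B : Finset ℤ}
    {z : ℤ} :
    z ∈ outL a (base a B) n t m es B.toList ↔ z ∈ wholeZ a n es.toFinset B t m := by
  unfold wholeZ whole addSingles outL
  simp only [List.mem_append, List.mem_map, List.mem_range, List.mem_flatMap, List.mem_cons,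
    Finset.mem_toList, Finset.mem_image, Finset.mem_union, Finset.mem_range]
  constructor
  · rintro (⟨j, hj, rfl⟩ | ((⟨i, hi, rfl⟩ | ⟨e, he, (rfl | ⟨s, hs, rfl⟩)⟩) | ⟨j, hj, b, hb, rfl⟩))
    · exact ⟨monomial j 1, Or.inl ⟨j, hj, rfl⟩, by simp [eval_monomial]⟩
    · refine ⟨shift t (el n a (Idx.v i)), Or.inr ⟨_, Or.inl ?_, rfl⟩, ?_⟩
      · exact Finset.mem_image_of_mem _ (mem_names.2 (Or.inl ⟨i, hi, rfl⟩))
      · rw [eval_shift]
        simp only [el, eval_monomial]
        rw [pow_add]; ring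
    · refine ⟨shift t (el n a (Idx.l e)), Or.inr ⟨_, Or.inl ?_, rfl⟩, ?_⟩
      · exact Finset.mem_image_of_mem _ (mem_names.2 (Or.inr ⟨e, by simpa using he, Or.inl rfl⟩))
      · rw [eval_shift, eval_lst]
    · refine ⟨shift t (el n a (Idx.g e s)), Or.inr ⟨_, Or.inl ?_, rfl⟩, ?_⟩
      · exact Finset.mem_image_of_mem _
          (mem_names.2 (Or.inr ⟨e, by simpa using he, Or.inr ⟨s, hs, rfl⟩⟩))
      · rw [eval_shift]
        simp only [el, eval_monomial]
        rw [pow_add]; ring
    · refine ⟨shift t (shift (npos n r) (monomial j b)), Or.inr ⟨_, Or.inr ⟨_, ?_, rfl⟩, rfl⟩, ?_⟩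
      · exact mem_padOf.2 ⟨j, hj, b, hb, rfl⟩
      · rw [eval_shift, eval_shift, eval_monomial, pow_add, pow_add]; ring
  · rintro ⟨p, (⟨j, hj, rfl⟩ | ⟨q, (hq | ⟨w, hw, rfl⟩), rfl⟩), rfl⟩
    · left
      exact ⟨j, hj, by simp [eval_monomial]⟩
    · right; left
      obtain ⟨y, hy, rfl⟩ := Finset.mem_image.1 hq
      rw [eval_shift]
      rcases mem_names.1 hy with ⟨i, hi, rfl⟩ | ⟨e, he, rfl | ⟨s, hs, rfl⟩⟩
      · left
        refine ⟨i, hi, ?_⟩
        simp only [el, eval_monomial]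
        rw [pow_add]; ring
      · right
        refine ⟨e, by simpa using he, Or.inl ?_⟩
        rw [eval_lst]
      · right
        refine ⟨e, by simpa using he, Or.inr ⟨s, hs, ?_⟩⟩
        simp only [el, eval_monomial]
        rw [pow_add]; ring
    · right; right
      obtain ⟨j, hj, b, hb, rfl⟩ := mem_padOf.1 hw
      refine ⟨j, hj, b, hb, ?_⟩
      rw [eval_shift, eval_shift, eval_monomial, pow_add, pow_add]; ring

theorem length_outL {r : ℕ} {a : Fin (r + 3) → ℤ} {M n t m : ℕ} {es : List (ℕ × ℕ)}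
    {bs : List ℤ} :
    (outL a M n t m es bs).length = t + (n + es.length * (r + 1) + m * bs.length) := by
  unfold outL
  simp only [List.length_append, List.length_map, List.length_range, List.length_flatMap,
    List.length_cons, List.map_const', List.sum_replicate, smul_eq_mul]

theorem toFinset_outL {r : ℕ} {a : Fin (r + 3) → ℤ} {n t m : ℕ} {es : List (ℕ × ℕ)}
    {B : Finset ℤ} :
    (outL a (base a B) n t m es B.toList).toFinset = wholeZ a n es.toFinset B t m := by
  ext z
  rw [List.mem_toFinset, mem_outL]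

theorem nodup_outL {r : ℕ} {a : Fin (r + 3) → ℤ} {n t m : ℕ} {es : List (ℕ × ℕ)}
    {B : Finset ℤ} (hE : IsEdges n es.toFinset) (ha : ∀ i, a i ≠ 0) (hB0 : 0 ∉ B)
    (hes : es.Nodup) : (outL a (base a B) n t m es B.toList).Nodup := by
  rw [← Multiset.coe_nodup, ← Multiset.toFinset_card_eq_card_iff_nodup, Multiset.coe_card]
  change (outL a (base a B) n t m es B.toList).toFinset.card = _
  rw [toFinset_outL, card_wholeZ, card_whole hE ha hB0,
    length_outL, List.toFinset_card_of_nodup hes, Finset.length_toList]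

end Pool.Agent.H76.SF
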