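import Pool.Agent.H76.SF.Out
import Pool.Agent.H76.H687R2.IntPoly
import Pool.Agent.H76.H601R2.PP

/-!
# The reduction: correctness and polynomial running time
-/

set_option autoImplicit false

namespace Pool.Agent.H76.SF

open Pool.Agent.NPC Pool.Agent.H692R2 Pool.Agent.NPC.R542

/-! ### arithmetic -/

theorem numeric {p d t V eK gs c : ℕ} (hd : 0 < d) (hYZ : (p + d) * (eK + gs) ≤ p * c)
    (hV : V ≤ eK) (ht : t = (p * c - (p + d) * (eK + gs) + d - 1) / d) :
    p * (t + c) ≤ (p + d) * (t + (V + gs)) ↔ eK ≤ V := by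
  have h1 := Nat.lt_mul_div_succ (p * c - (p + d) * (eK + gs) + d - 1) hd
  have h2 := Nat.mul_div_le (p * c - (p + d) * (eK + gs) + d - 1) d
  rw [← ht] at h1 h2
  rw [Nat.mul_add d t 1] at h1
  have e1 : p * (t + c) = p * t + p * c := by ring
  have e2 : (p + d) * (t + (V + gs)) = p * t + d * t + (p + d) * (V + gs) := by ring
  constructor
  · intro h
    by_contra hcon
    have h3 : (p + d) * (V + gs) + (p + d) ≤ (p + d) * (eK + gs) := by
      have : (p + d) * (V + gs + 1) ≤ (p + d) * (eK + gs) := Nat.mul_le_mul_left _ (by omega)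
      rwa [Nat.mul_add, Nat.mul_one] at this
    omega
  · intro h
    have h3 : V = eK := le_antisymm hV h
    subst h3
    omega

/-! ### edges of the input graph -/

/-- The list of the edges `(i, j)`, `i < j`. -/
noncomputable def edgesL (G : FinGraph) : List (ℕ × ℕ) :=
  ((List.range G.n).flatMap fun i => (List.range G.n).map fun j => (i, j)).filter
    fun e => decide (e.1 < e.2) && adjB G e.1 e.2

theorem mem_edgesL {G : FinGraph} {e : ℕ × ℕ} :
    e ∈ edgesL G ↔ (e.1 < e.2 ∧ e.2 < G.n) ∧ adjB G e.1 e.2 = true := by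
  obtain ⟨i, j⟩ := e
  unfold edgesL
  rw [List.mem_filter, List.mem_flatMap, Bool.and_eq_true, decide_eq_true_eq]
  constructor
  · rintro ⟨⟨i', hi', hj⟩, h1, h2⟩
    obtain ⟨j', hj', h⟩ := List.mem_map.1 hj
    cases h
    exact ⟨⟨h1, List.mem_range.1 hj'⟩, h2⟩
  · rintro ⟨⟨h1, h2⟩, h3⟩
    exact ⟨⟨i, List.mem_range.2 (lt_trans h1 h2), List.mem_map.2 ⟨j, List.mem_range.2 h2, rfl⟩⟩,
      h1, h3⟩

theorem edgesL_nodup (G : FinGraph) : (edgesL G).Nodup := by
  unfold edgesL
  exact (List.Nodup.product List.nodup_range List.nodup_range).filter _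

theorem isEdges (G : FinGraph) : IsEdges G.n (edgesL G).toFinset := by
  intro e he
  rw [List.mem_toFinset, mem_edgesL] at he
  exact he.1

theorem indep_of_graph {G : FinGraph} {S : Finset (Fin G.n)} (hS : G.graph.IsIndepSet S) :
    IndepIn G.n (edgesL G).toFinset (S.map Fin.valEmbedding) := by
  constructor
  · intro v hv
    obtain ⟨w, _, rfl⟩ := Finset.mem_map.1 hv
    exact w.2
  · rintro e he ⟨h1, h2⟩
    rw [List.mem_toFinset, mem_edgesL] at he
    obtain ⟨u, hu, hu'⟩ := Finset.mem_map.1 h1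
    obtain ⟨w, hw, hw'⟩ := Finset.mem_map.1 h2
    have e1 : (u : ℕ) = e.1 := hu'
    have e2 : (w : ℕ) = e.2 := hw'
    have h3 := he.2
    rw [← e1, ← e2, adjB_iff] at h3
    have hne : u ≠ w := by
      rintro rfl
      omega
    exact hS (by exact_mod_cast hu) (by exact_mod_cast hw) hne h3

theorem graph_of_indep {G : FinGraph} {T : Finset ℕ}
    (hT : IndepIn G.n (edgesL G).toFinset T) :
    ∃ S : Finset (Fin G.n), G.graph.IsIndepSet S ∧ S.card = T.card := by
  classical
  refine ⟨Finset.univ.filter fun v : Fin G.n => (v : ℕ) ∈ T, ?_, ?_⟩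
  · intro u hu w hw huw hadj
    simp only [Finset.coe_filter, Finset.mem_univ, true_and, Set.mem_ofPred_eq] at hu hw
    rcases lt_or_gt_of_ne (fun h => huw (Fin.ext h) : (u : ℕ) ≠ w) with h | h
    · refine hT.2 ((u : ℕ), (w : ℕ)) ?_ ⟨hu, hw⟩
      rw [List.mem_toFinset, mem_edgesL]
      exact ⟨⟨h, w.2⟩, (adjB_iff G u w).2 hadj⟩
    · refine hT.2 ((w : ℕ), (u : ℕ)) ?_ ⟨hw, hu⟩
      rw [List.mem_toFinset, mem_edgesL]
      exact ⟨⟨h, u.2⟩, (adjB_iff G w u).2 hadj.symm⟩
  · rw [← Finset.card_map Fin.valEmbedding]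
    congr 1
    ext v
    simp only [Finset.mem_map, Finset.mem_filter, Finset.mem_univ, true_and]
    constructor
    · rintro ⟨w, hw, rfl⟩
      exact hw
    · intro hv
      exact ⟨⟨v, hT.1 v hv⟩, hv, rfl⟩

/-! ### the reduction -/

section

variable {r : ℕ} (a : Fin (r + 3) → ℤ) (B : Finset ℤ) (p d m₀ g₀ α : ℕ)

/-- `|E| (r + 1) + K` -/
noncomputable def eK (I : FinGraph × ℕ) : ℕ := (edgesL I.1).length * (r + 1) + min I.2 I.1.n

/-- the number of additional copies -/
noncomputable def sPar (I : FinGraph × ℕ) : ℕ := (p + d) * (eK (r := r) I + g₀)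

/-- the number of elements apart from the single ones -/
noncomputable def cPar (I : FinGraph × ℕ) : ℕ :=
  I.1.n + (edgesL I.1).length * (r + 1) + (m₀ + sPar (r := r) p d g₀ I) * B.card

/-- the number of single elements -/
noncomputable def tPar (I : FinGraph × ℕ) : ℕ :=
  (p * cPar (r := r) B p d m₀ g₀ I -
    (p + d) * (eK (r := r) I + (g₀ + α * sPar (r := r) p d g₀ I)) + d - 1) / d

/-- The output of the reduction. -/
noncomputable def red (I : FinGraph × ℕ) : List ℤ :=
  outL a (base a B) I.1.n (tPar (r := r) B p d m₀ g₀ α I) (m₀ + sPar (r := r) p d g₀ I)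
    (edgesL I.1) B.toList

theorem red_nodup (ha : ∀ i, a i ≠ 0) (hB0 : 0 ∉ B) (I : FinGraph × ℕ) :
    (red a B p d m₀ g₀ α I).Nodup :=
  nodup_outL (isEdges I.1) ha hB0 (edgesL_nodup I.1)

theorem red_zero (ha : ∀ i, a i ≠ 0) (hB0 : 0 ∉ B) (I : FinGraph × ℕ) :
    0 ∉ red a B p d m₀ g₀ α I := by
  intro h
  rw [← List.mem_toFinset, red, toFinset_outL] at h
  exact zero_notMem_wholeZ (isEdges I.1) ha hB0 _ _ h

theorem red_correct (ha : ∀ i, a i ≠ 0) (ha01 : cf a 0 + cf a 1 ≠ 0) (hs : ∑ i, a i ≠ 0)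
    (hB : B.Nonempty) (hB0 : 0 ∉ B) (hd : 0 < d) (hm₀ : 0 < m₀)
    (hα : (p + d) * α < p * B.card) (hpad : ∀ s, vmax a (pad B (m₀ + s)) = g₀ + α * s)
    (I : FinGraph × ℕ) (hI : Bounded I) (hn : I.1.n = 3 * I.2) :
    p * (red a B p d m₀ g₀ α I).length ≤
      (p + d) * vmax a (red a B p d m₀ g₀ α I).toFinset ↔ HasIndep I := by
  have hK : min I.2 I.1.n = I.2 := min_eq_left (by omega)
  have hE := isEdges I.1
  have hlen : (edgesL I.1).toFinset.card = (edgesL I.1).length :=
    List.toFinset_card_of_nodup (edgesL_nodup I.1)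
  have hV : vmax a (code I.1.n a (edgesL I.1).toFinset) ≤ eK (r := r) I := by
    obtain ⟨T, hT, h⟩ := exists_indep hE ha ha01 hs
    obtain ⟨S, hS, hSc⟩ := graph_of_indep hT
    have := hI S hS
    rw [hlen] at h
    unfold eK
    rw [hK]
    omega
  have hiff : eK (r := r) I ≤ vmax a (code I.1.n a (edgesL I.1).toFinset) ↔ HasIndep I := by
    unfold eK
    rw [hK]
    constructor
    · intro h
      obtain ⟨T, hT, h'⟩ := exists_indep hE ha ha01 hs
      obtain ⟨S, hS, hSc⟩ := graph_of_indep hT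
      have := hI S hS
      rw [hlen] at h'
      exact ⟨S, hS, by omega⟩
    · rintro ⟨S, hS, hSc⟩
      have h := le_vmax_code hE ha ha01 hs (indep_of_graph hS)
      rw [Finset.card_map, hSc, hlen] at h
      omega
  have h1 : (red a B p d m₀ g₀ α I).length = tPar (r := r) B p d m₀ g₀ α I +
      cPar (r := r) B p d m₀ g₀ I := by
    unfold red cPar
    rw [length_outL, Finset.length_toList]
  have h2 : vmax a (red a B p d m₀ g₀ α I).toFinset = tPar (r := r) B p d m₀ g₀ α I +
      (vmax a (code I.1.n a (edgesL I.1).toFinset) + (g₀ + α * sPar (r := r) p d g₀ I)) := by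
    rw [red, toFinset_outL, vmax_wholeZ, vmax_whole hE ha ha01 hs hB hB0 (by omega), hpad]
  rw [h1, h2, ← hiff]
  refine numeric hd ?_ hV rfl
  -- the honest subtraction
  unfold cPar
  set s := sPar (r := r) p d g₀ I with hsd
  have h3 : s = (p + d) * (eK (r := r) I + g₀) := rfl
  have h4 : s * ((p + d) * α + 1) ≤ s * (p * B.card) := Nat.mul_le_mul_left _ hα
  have h5 : (p + d) * (eK (r := r) I + (g₀ + α * s)) = s + s * ((p + d) * α) := by
    rw [h3]; ring
  rw [h5]
  calc s + s * ((p + d) * α) = s * ((p + d) * α + 1) := by ring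
    _ ≤ s * (p * B.card) := h4
    _ ≤ p * (I.1.n + (edgesL I.1).length * (r + 1) + (m₀ + s) * B.card) := by
      have : p * (I.1.n + (edgesL I.1).length * (r + 1) + (m₀ + s) * B.card) =
        s * (p * B.card) + p * (I.1.n + (edgesL I.1).length * (r + 1) + m₀ * B.card) := by ring
      rw [this]
      exact Nat.le_add_right _ _

/-! ### polynomial time -/

variable {β γ : Type} [TEnc β] [TEnc γ]

theorem polyPow (M : ℕ) {f bd : β → ℕ} (hf : NPC.Poly f) (hb : UPoly bd) :
    NPC.Poly (fun x => (M : ℤ) ^ (min (f x) (bd x))) := by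
  refine (NPC.Poly.natCast (NPC.Poly.npow (NPC.Poly.const M)
    (UPoly.of_le (NPC.Poly.min hf hb.toPoly) hb fun x => min_le_right _ _))).congr fun x => ?_
  push_cast
  rfl

theorem edgesL_poly {G : β → FinGraph} (hG : NPC.Poly G) : NPC.Poly (fun x => edgesL (G x)) := by
  unfold edgesL
  refine NPC.Poly.filter (p := fun x (e : ℕ × ℕ) => decide (e.1 < e.2) && adjB (G x) e.1 e.2) ?_ ?_
  · refine NPC.Poly.flatMap (F := fun x i => (List.range (G x).n).map fun j => (i, j))
      (UPoly.range (upoly_n hG)) ?_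
    refine NPC.Poly.map (l := fun y : β × ℕ => List.range (G y.1).n) (F := fun y j => (y.2, j))
      (UPoly.range (upoly_n (hG.comp (NPC.Poly.fst NPC.Poly.id)))) ?_
    exact NPC.Poly.pair (NPC.Poly.snd (NPC.Poly.fst NPC.Poly.id)) (NPC.Poly.snd NPC.Poly.id)
  · exact NPC.Poly.and (NPC.Poly.decide_lt (NPC.Poly.fst (NPC.Poly.snd NPC.Poly.id)) (NPC.Poly.snd (NPC.Poly.snd NPC.Poly.id)))
      (poly_adjB (hG.comp (NPC.Poly.fst NPC.Poly.id)) (NPC.Poly.fst (NPC.Poly.snd NPC.Poly.id))
        (NPC.Poly.snd (NPC.Poly.snd NPC.Poly.id)))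

theorem upoly_eK : UPoly (fun I : FinGraph × ℕ => eK (r := r) I) := by
  unfold eK
  refine UPoly.add (UPoly.mul (UPoly.length (edgesL_poly (NPC.Poly.fst NPC.Poly.id))) (UPoly.const _)) ?_
  exact UPoly.of_le (NPC.Poly.min (NPC.Poly.snd NPC.Poly.id) (poly_n (NPC.Poly.fst NPC.Poly.id)))
    (upoly_n (NPC.Poly.fst NPC.Poly.id)) fun I => min_le_right _ _

theorem upoly_sPar : UPoly (fun I : FinGraph × ℕ => sPar (r := r) p d g₀ I) :=
  UPoly.mul (UPoly.const _) (UPoly.add upoly_eK (UPoly.const _))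

theorem upoly_cPar : UPoly (fun I : FinGraph × ℕ => cPar (r := r) B p d m₀ g₀ I) :=
  UPoly.add (UPoly.add (upoly_n (NPC.Poly.fst NPC.Poly.id))
    (UPoly.mul (UPoly.length (edgesL_poly (NPC.Poly.fst NPC.Poly.id))) (UPoly.const _)))
    (UPoly.mul (UPoly.add (UPoly.const _) (upoly_sPar p d g₀)) (UPoly.const _))

theorem upoly_tPar : UPoly (fun I : FinGraph × ℕ => tPar (r := r) B p d m₀ g₀ α I) := by
  unfold tPar
  have h1 : UPoly (fun I : FinGraph × ℕ => p * cPar (r := r) B p d m₀ g₀ I) :=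
    UPoly.mul (UPoly.const _) (upoly_cPar B p d m₀ g₀)
  have h2 : UPoly (fun I : FinGraph × ℕ =>
      (p + d) * (eK (r := r) I + (g₀ + α * sPar (r := r) p d g₀ I))) :=
    UPoly.mul (UPoly.const _) (UPoly.add upoly_eK (UPoly.add (UPoly.const _)
      (UPoly.mul (UPoly.const _) (upoly_sPar p d g₀))))
  refine UPoly.of_le (n := fun I => p * cPar (r := r) B p d m₀ g₀ I + d)
    (NPC.Poly.div (NPC.Poly.sub (NPC.Poly.add (NPC.Poly.sub h1.toPoly h2.toPoly) (NPC.Poly.const d)) (NPC.Poly.const 1))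
      (NPC.Poly.const d)) (UPoly.add h1 (UPoly.const d)) fun I => ?_
  refine (Nat.div_le_self _ _).trans ?_
  omega

/-- The output with explicitly bounded exponents. -/
def outB {r : ℕ} (a : Fin (r + 3) → ℤ) (M T n t m : ℕ) (es : List (ℕ × ℕ)) (bs : List ℤ) :
    List ℤ :=
  (List.range t).map (fun j => (M : ℤ) ^ (min j T)) ++
  (((List.range n).map (fun i => cf a (r + 2) * (M : ℤ) ^ (min (t + i) T)) ++
    es.flatMap (fun e => (-(cf a 0 * (M : ℤ) ^ (min (t + e.1) T) +
      cf a 1 * (M : ℤ) ^ (min (t + e.2) T) +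
      ((List.range r).map fun s => cf a (s + 2) * (M : ℤ) ^ (min (t + pos n r e s) T)).sum)) ::
      (List.range r).map (fun s => cf a (r + 2) * (M : ℤ) ^ (min (t + pos n r e s) T)))) ++
  (List.range m).flatMap (fun j => bs.map (fun b => b * (M : ℤ) ^ (min (t + (npos n r + j)) T))))

theorem outB_eq {r : ℕ} (a : Fin (r + 3) → ℤ) (M T n t m : ℕ) (es : List (ℕ × ℕ)) (bs : List ℤ)
    (hE : ∀ e ∈ es, e.1 < n ∧ e.2 < n) (hT : t + (npos n r + m) ≤ T) :
    outB a M T n t m es bs = outL a M n t m es bs := by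
  have hn : n ≤ npos n r := Nat.le_add_right _ _
  unfold outB outL
  congr 1
  · refine List.map_congr_left fun j hj => ?_
    rw [List.mem_range] at hj
    rw [min_eq_left (by omega)]
  · congr 1
    · congr 1
      · refine List.map_congr_left fun i hi => ?_
        rw [List.mem_range] at hi
        rw [min_eq_left (by omega)]
      · rw [List.flatMap_def, List.flatMap_def]
        congr 1
        refine List.map_congr_left fun e he => ?_
        have hee := hE e he
        have h1 : ∀ s ∈ List.range r, min (t + pos n r e s) T = t + pos n r e s := by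
          intro s hs
          rw [List.mem_range] at hs
          have := pos_lt hee.1 hee.2 hs
          exact min_eq_left (by omega)
        unfold lstZ
        rw [min_eq_left (by omega), min_eq_left (by omega)]
        congr 1
        · congr 2
          congr 1
          exact List.map_congr_left fun s hs => by rw [h1 s hs]
        · exact List.map_congr_left fun s hs => by rw [h1 s hs]
    · rw [List.flatMap_def, List.flatMap_def]
      congr 1
      refine List.map_congr_left fun j hj => ?_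
      rw [List.mem_range] at hj
      rw [min_eq_left (by omega)]

end

end Pool.Agent.H76.SF
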